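import Pool.Agent.TH571.GP.Generic

set_option autoImplicit false

/-!
The `p`-curvature conjecture for generic exponents.
-/

open Polynomial Pool.Agent.W432.PC Pool.Agent.W432.TC

namespace Pool.Agent.TH571.GP

/-- The cosets of points all of whose prime multiples satisfy the Weyl inequalities. -/
theorem cosets (n r : ℕ) :
    ∃ 𝒟 : Finset (AddSubgroup (ExponentIndex n r → ℤ) × (ExponentIndex n r → ℚ)),
      (∀ C ∈ 𝒟, (∀ (d : ℤ) (m : ExponentIndex n r → ℤ), d ≠ 0 → d • m ∈ C.1 → m ∈ C.1) ∧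
        traceRelation n r ∈ C.1 ∧ ∀ z, InCoset C.1 C.2 z → WeylBoth z) ∧
      ∀ x : ExponentIndex n r → ℚ, (∃ z : ℤ, ∑ i, (traceRelation n r i : ℚ) * x i = z) →
        (∃ N : ℕ, 0 < N ∧ (∀ i, ∃ z : ℤ, (N : ℚ) * x i = z) ∧ ∀ a : ℤ, IsCoprime a (N : ℤ) →
          WeylBoth (fun i => (a : ℝ) * x i)) →
        ∃ C ∈ 𝒟, InCoset C.1 C.2 (fun i => (x i : ℝ)) := by
  obtain ⟨𝒟, h𝒟, hcov⟩ := torsion_cosets (traceRelation n r)
    {z : ExponentIndex n r → ℝ | (∃ e : ℤ, ∑ i, (traceRelation n r i : ℝ) * z i = e) ∧ ¬ WeylBoth z} (by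
    rintro z ⟨⟨e, he⟩, hz⟩
    rw [tr_sum] at he
    unfold WeylBoth at hz
    rw [not_and_or] at hz
    rcases hz with hz | hz
    · obtain ⟨δ, hδ, h⟩ := weyl_open _ _ ⟨e, he⟩ hz
      refine ⟨δ, hδ, fun x hx hnear => ⟨hx, fun hW => ?_⟩⟩
      exact h _ _ (fun j l => hnear _) (fun l => hnear _) hW.1
    · obtain ⟨δ, hδ, h⟩ := weyl_open _ _ ⟨-e, by
        simp only [Finset.sum_neg_distrib]; push_cast; rw [← he]; ring⟩ hz
      refine ⟨δ, hδ, fun x hx hnear => ⟨hx, fun hW => ?_⟩⟩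
      refine h _ _ (fun j l => ?_) (fun l => ?_) hW.2
      · obtain ⟨z', hz'⟩ := hnear (Sum.inl (j, l))
        refine ⟨-z', ?_⟩
        push_cast
        rw [← abs_neg]
        convert hz' using 2
        ring
      · obtain ⟨z', hz'⟩ := hnear (Sum.inr l)
        refine ⟨-z', ?_⟩
        push_cast
        rw [← abs_neg]
        convert hz' using 2
        ring)
  refine ⟨𝒟, fun C hC => ?_, fun x hx hN => ?_⟩
  · obtain ⟨h1, h2, ⟨e, he⟩, h4⟩ := h𝒟 C hC
    refine ⟨h1, h2, fun z hz => ?_⟩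
    by_contra hW
    refine h4 z hz ⟨?_, hW⟩
    obtain ⟨e', he'⟩ := hz _ h2
    have he2 : ∑ i, (traceRelation n r i : ℝ) * (C.2 i : ℝ) = e := by
      have := congrArg (fun q : ℚ => (q : ℝ)) he
      push_cast at this
      exact this
    refine ⟨e' + e, ?_⟩
    push_cast
    rw [← he', ← he2, ← Finset.sum_add_distrib]
    exact Finset.sum_congr rfl fun i _ => by ring
  · obtain ⟨N, hN, hNx, hW⟩ := hN
    exact hcov x hx ⟨N, hN, hNx, fun a ha h => h.2 (hW a ha)⟩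

universe u

theorem final (n r : ℕ) (hn : 2 ≤ n) :
    ∃ 𝒟 : Finset (AddSubgroup (ExponentIndex n r → ℤ) × (ExponentIndex n r → ℚ)),
      (∀ C ∈ 𝒟, ∃ m : Fin (r + 1) → ExponentIndex n r → ℤ,
        LinearIndependent ℤ m ∧ ∀ k, m k ∈ C.1) ∧
      ∀ (R : Type u) [CommRing R] [IsDomain R] [CharZero R] [Algebra.FiniteType ℤ R]
        (α : Fin n → R) (A : Fin n → Matrix (Fin r) (Fin r) R)
        (lam : Fin n → Fin r → ℚ) (phi : Fin r → ℚ) (N : ℕ),
        (∀ i j, i ≠ j → IsUnit (α i - α j)) →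
        (∀ j, HasExponents (A j) (lam j)) → HasExponents (∑ j, A j) phi →
        0 < N → (∀ j l, ∃ m : ℤ, (N : ℚ) * lam j l = m) → (∀ l, ∃ m : ℤ, (N : ℚ) * phi l = m) →
        (∃ C ∈ 𝒟, InCoset C.1 C.2 (fun i => ((Sum.elim (fun p => lam p.1 p.2) phi i : ℚ) : ℝ))) ∨
          HasAlgebraicSolutions α A ∨
          ((∃ (a : ℤ) (g : R), IsCoprime a (N : ℤ) ∧ g ≠ 0 ∧ ∃ P₀ : ℕ, ∀ p : ℕ, p.Prime → P₀ < p →
            (N : ℤ) ∣ a * p + 1 → ∀ (𝔪 : Ideal R) [𝔪.IsMaximal], (p : R) ∈ 𝔪 → g ∉ 𝔪 →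
              ¬ PCurvZeroAt α A 𝔪) ∧ ¬ CondII α A) := by
  classical
  obtain ⟨𝒟₁, h𝒟₁, hcov⟩ := cosets n r
  have hn1 : (0 : ℝ) < (n : ℝ) + 1 := by positivity
  have hδ : (0 : ℝ) < 1 / (4 * ((n : ℝ) + 1)) := by positivity
  choose K Q hKQ using fun (σ : Option (Fin n) → Equiv.Perm (Fin r)) (l₀ : Fin r) =>
    equidist (Lsig σ) (0 : ExponentIndex n r → ℚ) (tgt σ l₀) (tgt_coset σ l₀) _ hδ
  let K' : ℕ := ∑ σ, ∑ l₀, K σ l₀ + 1
  let Q' : ℕ := ∑ σ, ∑ l₀, Q σ l₀ + 1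
  have hK' : ∀ σ l₀, K σ l₀ ≤ K' := fun σ l₀ =>
    (Finset.single_le_sum (f := fun l₀ => K σ l₀) (fun _ _ => Nat.zero_le _) (Finset.mem_univ l₀)).trans
      ((Finset.single_le_sum (f := fun σ => ∑ l₀, K σ l₀) (fun _ _ => Nat.zero_le _)
        (Finset.mem_univ σ)).trans (Nat.le_succ _))
  have hQ' : ∀ σ l₀, Q σ l₀ ≤ Q' := fun σ l₀ =>
    (Finset.single_le_sum (f := fun l₀ => Q σ l₀) (fun _ _ => Nat.zero_le _) (Finset.mem_univ l₀)).trans
      ((Finset.single_le_sum (f := fun σ => ∑ l₀, Q σ l₀) (fun _ _ => Nat.zero_le _)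
        (Finset.mem_univ σ)).trans (Nat.le_succ _))
  let box : Finset (ExponentIndex n r → ℤ) :=
    Fintype.piFinset fun _ => Finset.Icc (-(K' : ℤ)) K'
  let 𝒟₂ : Finset (AddSubgroup (ExponentIndex n r → ℤ) × (ExponentIndex n r → ℚ)) :=
    (Finset.univ ×ˢ (box ×ˢ Finset.Icc 1 Q')).biUnion fun t :
      (Option (Fin n) → Equiv.Perm (Fin r)) × ((ExponentIndex n r → ℤ) × ℕ) =>
      if t.2.1 ∈ Lsig t.1 then ∅ else
        {(Lsig t.1 ⊔ AddSubgroup.zmultiples ((t.2.2 : ℤ) • t.2.1), 0)}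
  let good : AddSubgroup (ExponentIndex n r → ℤ) × (ExponentIndex n r → ℚ) → Prop := fun C =>
    ∃ m : Fin (r + 1) → ExponentIndex n r → ℤ, LinearIndependent ℤ m ∧ ∀ k, m k ∈ C.1
  refine ⟨𝒟₁.filter good ∪ 𝒟₂, fun C hC => ?_, ?_⟩
  · rcases Finset.mem_union.mp hC with hC | hC
    · exact (Finset.mem_filter.mp hC).2
    · obtain ⟨⟨σ, m, q⟩, ht, hC⟩ := Finset.mem_biUnion.mp hC
      simp only at hC
      split_ifs at hC with hm
      · exact absurd hC (Finset.notMem_empty _)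
      · rw [Finset.mem_singleton] at hC
        rw [hC]
        have hq := (Finset.mem_product.mp (Finset.mem_product.mp ht).2).2
        have hq1 := (Finset.mem_Icc.mp hq).1
        refine indep_Lsig hm ?_
        have : (0 : ℤ) < (q : ℤ) := by exact_mod_cast hq1
        exact this.ne'
  intro R _ _ _ _ α A lam phi N hα hlam hphi hN hNlam hNphi
  have := charZero_fraction (R := R)
  refine or_iff_not_imp_left.mpr fun hnot => ?_
  set x : ExponentIndex n r → ℚ := Sum.elim (fun p => lam p.1 p.2) phi with hx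
  have hNx : ∀ i, ∃ z : ℤ, (N : ℚ) * x i = z := by
    rintro (⟨j, l⟩ | l)
    · exact hNlam j l
    · exact hNphi l
  have htr : ∑ i, (traceRelation n r i : ℚ) * x i = 0 := by
    rw [tr_sum]
    simp only [hx, Sum.elim_inl, Sum.elim_inr]
    have h1 := HasExponents.trace hphi
    have h2 := fun j => HasExponents.trace (hlam j)
    have h3 : (∑ j, A j).trace = ∑ j, (A j).trace := by
      rw [Matrix.trace_sum]
    rw [h3, map_sum, Finset.sum_congr rfl fun j _ => h2 j] at h1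
    have h4 : ((∑ j, ∑ l, lam j l : ℚ) : FractionRing R) =
        ((∑ l, phi l : ℚ) : FractionRing R) := by
      push_cast
      push_cast at h1
      exact h1
    have h5 : ∑ j, ∑ l, lam j l = ∑ l, phi l := by exact_mod_cast h4
    rw [h5, sub_self]
  -- first case: a violation
  by_cases key : ∃ a : ℤ, IsCoprime a (N : ℤ) ∧ ¬ WeylBoth (fun i => (a : ℝ) * x i)
  · right
    obtain ⟨a, ha, hbad⟩ := key
    obtain ⟨P₀, hP₀⟩ := exists_bad α hα A lam phi hlam hphi N hN hNlam hNphi a hbad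
    have h1 : ∀ p : ℕ, p.Prime → P₀ < p → (N : ℤ) ∣ a * p + 1 → ∀ (𝔪 : Ideal R) [𝔪.IsMaximal],
        (p : R) ∈ 𝔪 → (1 : R) ∉ 𝔪 → ¬ PCurvZeroAt α A 𝔪 :=
      fun p hp hpP hap 𝔪 _ hpm _ => hP₀ p hp hpP hap 𝔪 hpm
    exact ⟨⟨a, 1, ha, one_ne_zero, P₀, h1⟩, not_condII_of α A N hN a ha ⟨1, one_ne_zero, P₀, h1⟩⟩
  push Not at key
  -- second case: the exponents are on a coset with `r` relations
  obtain ⟨C, hC, hxC⟩ := hcov x ⟨0, by rw [htr]; simp⟩ ⟨N, hN, hNx, key⟩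
  have hCgood : ¬ good C := fun h => hnot ⟨C, Finset.mem_union_left _ (Finset.mem_filter.mpr ⟨hC, h⟩), hxC⟩
  obtain ⟨hsat, htrC, hWC⟩ := h𝒟₁ C hC
  obtain ⟨⟨σ, hσ⟩, hint⟩ := coset_structure hsat htrC hWC hCgood
  have hsum : ∀ l, ∃ z : ℤ, ∑ j, lam j (σ (some j) l) - phi (σ none l) = z := by
    intro l
    obtain ⟨z, hz⟩ := inCoset_rat.mp hxC _ (hσ l)
    obtain ⟨z', hz'⟩ := hint _ (hσ l)
    refine ⟨z + z', ?_⟩
    have h1 : ∑ i, (sumRel σ l i : ℚ) * x i = z + z' := by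
      simp only [mul_sub, Finset.sum_sub_distrib] at hz
      linarith
    rw [Int.cast_add, ← h1, Fintype.sum_sum_type, Fintype.sum_prod_type]
    simp only [sumRel_inl, sumRel_inr, hx, Sum.elim_inl, Sum.elim_inr]
    push_cast
    simp only [ite_mul, one_mul, zero_mul, neg_mul, Finset.sum_ite_eq', Finset.mem_univ, if_true,
      Finset.sum_neg_distrib]
    ring
  have hxL : ∀ m ∈ Lsig σ, ∃ z : ℤ, ∑ i, (m i : ℚ) * x i = z := by
    intro m hm
    choose z hz using hsum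
    refine ⟨∑ l, -(m (Sum.inr (σ none l))) * z l, ?_⟩
    rw [sum_Lsig hm]
    push_cast
    refine Finset.sum_congr rfl fun l _ => ?_
    rw [← hz l]
    rfl
  -- the exponents are generic
  have hgen : ∀ m ∉ Lsig σ, (∀ i, |m i| ≤ K') → ∀ q : ℕ, 0 < q → q ≤ Q' →
      ¬ ∃ z : ℤ, (q : ℚ) * ∑ i, (m i : ℚ) * x i = z := by
    rintro m hm hmK q hq hqQ ⟨z, hz⟩
    refine hnot ⟨(Lsig σ ⊔ AddSubgroup.zmultiples ((q : ℤ) • m), 0), Finset.mem_union_right _ ?_, ?_⟩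
    · refine Finset.mem_biUnion.mpr ⟨(σ, m, q), ?_, ?_⟩
      · refine Finset.mem_product.mpr ⟨Finset.mem_univ _, Finset.mem_product.mpr ⟨?_, ?_⟩⟩
        · exact Fintype.mem_piFinset.mpr fun i => Finset.mem_Icc.mpr (abs_le.mp (hmK i))
        · exact Finset.mem_Icc.mpr ⟨hq, hqQ⟩
      · simp only
        rw [if_neg hm]
        exact Finset.mem_singleton_self _
    · rw [inCoset_rat]
      intro m' hm'
      obtain ⟨m₁, hm₁, m₂, hm₂, rfl⟩ := AddSubgroup.mem_sup.mp hm'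
      obtain ⟨k, rfl⟩ := AddSubgroup.mem_zmultiples_iff.mp hm₂
      obtain ⟨z₁, hz₁⟩ := hxL m₁ hm₁
      refine ⟨z₁ + k * z, ?_⟩
      push_cast
      rw [← hz₁, ← hz, Finset.mul_sum, Finset.mul_sum, ← Finset.sum_add_distrib]
      refine Finset.sum_congr rfl fun i _ => ?_
      simp only [Pi.add_apply, Pi.smul_apply, Pi.zero_apply, smul_eq_mul, sub_zero]
      push_cast
      ring
  have hmon : ∀ l₀, HasMonomialSolution α A (fun j => lam j (σ (some j) l₀)) ∨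
      ((∃ (a : ℤ) (g : R), IsCoprime a (N : ℤ) ∧ g ≠ 0 ∧ ∃ P₀ : ℕ, ∀ p : ℕ, p.Prime → P₀ < p →
        (N : ℤ) ∣ a * p + 1 → ∀ (𝔪 : Ideal R) [𝔪.IsMaximal], (p : R) ∈ 𝔪 → g ∉ 𝔪 →
          ¬ PCurvZeroAt α A 𝔪) ∧ ¬ CondII α A) := by
    intro l₀
    obtain ⟨a, ha, hnear⟩ := hKQ σ l₀ x (by
      intro m hm
      obtain ⟨z, hz⟩ := hxL m hm
      exact ⟨z, by simpa using hz⟩) (fun m hm hmK q hq hqQ => hgen m hm
        (fun i => (hmK i).trans (by exact_mod_cast hK' σ l₀)) q hq (hqQ.trans (hQ' σ l₀))) N hN hNx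
    rcases monomial_or hn α hα A lam phi hlam hphi N hN hNlam hNphi a ha σ hsum l₀ hnear with h | ⟨⟨g, hg, hP⟩, h2⟩
    · exact Or.inl h
    · exact Or.inr ⟨⟨a, g, ha, hg, hP⟩, h2⟩
  by_cases hall : ∀ l₀, HasMonomialSolution α A (fun j => lam j (σ (some j) l₀))
  · left
    have j₀ : Fin n := ⟨0, by omega⟩
    refine algebraic_of_monomial hα hlam (fun j => σ (some j)) j₀ ?_ hall
    rintro l l' hne ⟨z, hz⟩
    -- the relation `lam j₀ l - lam j₀ l'`
    let m : ExponentIndex n r → ℤ := Sum.elim (fun p => if p = (j₀, l) then 1 else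
      if p = (j₀, l') then -1 else 0) (fun _ => 0)
    have hm : m ∉ Lsig σ := by
      intro hm
      have h1 := mem_Lsig.mp hm j₀ ((σ (some j₀)).symm l)
      rw [Equiv.apply_symm_apply] at h1
      simp [m] at h1
    refine hgen m hm ?_ 1 one_pos (by simp only [Q']; omega) ⟨z, ?_⟩
    · intro i
      have h1 : (1 : ℤ) ≤ K' := by
        have h0 : 1 ≤ K' := Nat.le_add_left _ _
        exact_mod_cast h0
      rcases i with p | l''
      · simp only [m, Sum.elim_inl]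
        split_ifs
        · simpa using h1
        · simpa using h1
        · simp
      · simp [m]
    · rw [Nat.cast_one, one_mul, Fintype.sum_sum_type]
      simp only [m, Sum.elim_inl, Sum.elim_inr, Int.cast_zero, zero_mul, Finset.sum_const_zero,
        add_zero, hx]
      rw [← hz]
      have h2 : ∀ p : Fin n × Fin r, ((if p = (j₀, l) then 1 else if p = (j₀, l') then -1 else 0 : ℤ) : ℚ) *
          lam p.1 p.2 = (if p = (j₀, l) then lam j₀ l else 0) - (if p = (j₀, l') then lam j₀ l' else 0) := by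
        intro p
        by_cases h3 : p = (j₀, l)
        · have h4 : p ≠ (j₀, l') := by
            rw [h3]; intro h5; exact hne (Prod.ext_iff.mp h5).2
          rw [if_pos h3, if_pos h3, if_neg h4, h3]; simp
        · by_cases h4 : p = (j₀, l')
          · rw [if_neg h3, if_neg h3, if_pos h4, if_pos h4, h4]; simp
          · rw [if_neg h3, if_neg h3, if_neg h4, if_neg h4]; simp
      rw [Finset.sum_congr rfl fun p _ => h2 p, Finset.sum_sub_distrib]
      simp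
  · right
    push Not at hall
    obtain ⟨l₀, hl₀⟩ := hall
    exact (hmon l₀).resolve_left hl₀

end Pool.Agent.TH571.GP
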