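import Mathlib

set_option autoImplicit false

/-!
Echelon forms of groups of integral relations, and the inequalities which they satisfy if all
points of the coset satisfy the Weyl inequalities.
-/

open Filter Topology

namespace Pool.Agent.TH571.GP

/-- The representative of `t` modulo one in `(0, 1]`. -/
noncomputable def rep (t : ℝ) : ℝ := t + 1 - ⌈t⌉

lemma rep_pos (t : ℝ) : 0 < rep t := by
  have := Int.ceil_lt_add_one t
  unfold rep; linarith

lemma rep_zero : rep 0 = 1 := by simp [rep]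

lemma rep_sub_int (t : ℝ) (k : ℤ) : rep (t - k) = rep t := by
  unfold rep
  rw [Int.ceil_sub_intCast]
  push_cast; ring

lemma rep_neg {d : ℝ} (h0 : 0 ≤ d) (h1 : d < 1) : rep (-d) = 1 - d := by
  have : ⌈-d⌉ = 0 := by
    rw [Int.ceil_eq_iff]
    push_cast
    constructor <;> linarith
  unfold rep
  rw [this]
  push_cast; ring

lemma frac_le (t c : ℝ) : ∀ᶠ η in 𝓝[>] (0 : ℝ), Int.fract t ≤ rep (t + c * η) + |c| * η := by
  rcases (Int.fract_nonneg t).eq_or_lt with h | h
  · filter_upwards [self_mem_nhdsWithin] with η hη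
    have h1 : (0 : ℝ) < η := hη
    rw [← h]
    have := rep_pos (t + c * η)
    positivity
  · have h1 := Int.fract_lt_one t
    set m : ℝ := min (Int.fract t) (1 - Int.fract t) with hm
    have hm0 : 0 < m := lt_min h (by linarith)
    have hc : 0 ≤ |c| := abs_nonneg c
    have h2 : (0 : ℝ) < m / (|c| + 1) := by positivity
    filter_upwards [Ioo_mem_nhdsGT h2] with η hη
    have h3 : |c| * η < m := by
      have h4 := (lt_div_iff₀ (by positivity : (0 : ℝ) < |c| + 1)).mp hη.2
      nlinarith [hη.1]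
    have h5 : |c * η| < m := by rw [abs_mul, abs_of_pos hη.1]; exact h3
    have h6 := abs_lt.mp h5
    have h7 : m ≤ Int.fract t := min_le_left _ _
    have h8 : m ≤ 1 - Int.fract t := min_le_right _ _
    have h9 : ⌈t + c * η⌉ = ⌊t⌋ + 1 := by
      rw [Int.ceil_eq_iff]
      have := Int.floor_add_fract t
      push_cast
      constructor <;> linarith
    unfold rep
    rw [h9]
    have := Int.floor_add_fract t
    have h10 : -|c * η| ≤ c * η := neg_abs_le _
    rw [abs_mul, abs_of_pos hη.1] at h10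
    push_cast
    linarith

variable {P : Type*} [Fintype P] [DecidableEq P] {r : ℕ}

/-- The Weyl inequalities in symmetric form. -/
def SW (u : P × Fin r → ℝ) : Prop :=
  ∀ κ : P → ℝ, 0 < ∑ p, κ p →
    ∑ i, rep (κ i.1 - u i) ≤ ((Fintype.card P : ℝ) - 1) * r + r * ∑ p, κ p

omit [DecidableEq P] in
lemma SW_sub_int {u : P × Fin r → ℝ} (k : P × Fin r → ℤ) (h : SW (fun i => k i + u i)) : SW u := by
  intro κ hκ
  have h1 := h κ hκ
  refine le_trans (le_of_eq ?_) h1
  refine Finset.sum_congr rfl fun i _ => ?_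
  rw [← rep_sub_int (κ i.1 - u i) (k i)]
  congr 1; ring

section ech

variable {I : Type*} [Fintype I] [DecidableEq I]

/-- A set of coordinates which is dual to elements of `L`. -/
def TS (L : AddSubgroup (I → ℤ)) (B : Finset I) : Prop :=
  ∀ b ∈ B, ∃ m ∈ L, m b ≠ 0 ∧ ∀ b' ∈ B, b' ≠ b → m b' = 0

omit [Fintype I] [DecidableEq I] in
lemma TS.indep {L : AddSubgroup (I → ℤ)} {B : Finset I} (h : TS L B) {k : ℕ} (hk : k ≤ B.card) :
    ∃ m : Fin k → I → ℤ, LinearIndependent ℤ m ∧ ∀ j, m j ∈ L := by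
  choose! f hfL hf0 hf using h
  let e := B.equivFin
  let b : Fin k → I := fun j => (e.symm (Fin.castLE hk j)).1
  have hb : ∀ j, b j ∈ B := fun j => (e.symm (Fin.castLE hk j)).2
  have hinj : Function.Injective b := by
    intro j j' h
    have h1 := Subtype.ext_iff.mpr h
    have h2 := e.symm.injective h1
    exact Fin.castLE_injective hk h2
  refine ⟨fun j => f (b j), ?_, fun j => hfL _ (hb j)⟩
  rw [Fintype.linearIndependent_iff]
  intro g hg j
  have h1 := congrFun hg (b j)
  rw [Finset.sum_apply, Finset.sum_eq_single j] at h1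
  · simpa [hf0 _ (hb j)] using h1
  · intro j' _ hj'
    simp [hf (b j') (hb j') (b j) (hb j) (fun h => hj' (hinj h.symm))]
  · simp

/-- A reduced echelon form. -/
structure Ech (L : AddSubgroup (I → ℤ)) (B : Finset I) (s : I → I → ℝ) : Prop where
  one : ∀ b ∈ B, s b b = 1
  zero : ∀ b ∈ B, ∀ b' ∈ B, b' ≠ b → s b b' = 0
  exp : ∀ m ∈ L, ∀ i, (m i : ℝ) = ∑ b ∈ B, (m b : ℝ) * s b i
  mult : ∀ b ∈ B, ∃ m ∈ L, m b ≠ 0 ∧ ∀ i, (m i : ℝ) = (m b : ℝ) * s b i

lemma exists_ech (L : AddSubgroup (I → ℤ)) {B₀ : Finset I} (h₀ : TS L B₀) :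
    ∃ B, B₀ ⊆ B ∧ TS L B ∧ ∃ s, Ech L B s := by
  classical
  obtain ⟨B, hB, hmax⟩ := Finset.exists_max_image
    (Finset.univ.filter fun B : Finset I => B₀ ⊆ B ∧ TS L B) Finset.card
    ⟨B₀, by simp [h₀]⟩
  simp only [Finset.mem_filter, Finset.mem_univ, true_and] at hB hmax
  obtain ⟨hB₀, hTS⟩ := hB
  refine ⟨B, hB₀, hTS, ?_⟩
  have hinj : ∀ m ∈ L, (∀ b ∈ B, m b = 0) → m = 0 := by
    intro m hm hmB
    by_contra hne
    obtain ⟨i, hi⟩ : ∃ i, m i ≠ 0 := by
      by_contra hno
      push Not at hno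
      exact hne (funext hno)
    have hiB : i ∉ B := fun h => hi (hmB i h)
    have h1 : TS L (insert i B) := by
      intro b hb
      rcases Finset.mem_insert.mp hb with rfl | hb
      · refine ⟨m, hm, hi, fun b' hb' hne' => ?_⟩
        rcases Finset.mem_insert.mp hb' with rfl | hb'
        · exact absurd rfl hne'
        · exact hmB b' hb'
      · obtain ⟨m', hm', h1, h2⟩ := hTS b hb
        refine ⟨m i • m' - m' i • m, L.sub_mem (L.zsmul_mem hm' _) (L.zsmul_mem hm _), ?_, ?_⟩
        · simp only [Pi.sub_apply, Pi.smul_apply, smul_eq_mul]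
          rw [hmB b hb, mul_zero, sub_zero]
          exact mul_ne_zero hi h1
        · intro b' hb' hne'
          simp only [Pi.sub_apply, Pi.smul_apply, smul_eq_mul]
          rcases Finset.mem_insert.mp hb' with rfl | hb'
          · ring
          · rw [hmB b' hb', h2 b' hb' hne']; ring
    have h2 := hmax (insert i B) ⟨hB₀.trans (Finset.subset_insert _ _), h1⟩
    rw [Finset.card_insert_of_notMem hiB] at h2
    omega
  choose! f hfL hf0 hf using hTS
  refine ⟨fun b i => (f b i : ℝ) / f b b, ⟨?_, ?_, ?_, ?_⟩⟩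
  · intro b hb
    have : (f b b : ℝ) ≠ 0 := by exact_mod_cast hf0 b hb
    exact div_self this
  · intro b hb b' hb' hne
    rw [hf b hb b' hb' hne]; simp
  · intro m hm i
    set D : ℤ := ∏ b ∈ B, f b b with hD
    have hD0 : D ≠ 0 := Finset.prod_ne_zero_iff.mpr hf0
    have hdiv : ∀ b ∈ B, ∃ e, D = f b b * e := fun b hb =>
      Finset.dvd_prod_of_mem (fun b => f b b) hb
    choose! e he using hdiv
    have h1 : D • m - ∑ b ∈ B, (e b * m b) • f b = 0 := by
      refine hinj _ (L.sub_mem (L.zsmul_mem hm _) (L.sum_mem fun b hb => L.zsmul_mem (hfL b hb) _)) ?_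
      intro b hb
      simp only [Pi.sub_apply, Pi.smul_apply, Finset.sum_apply, smul_eq_mul]
      rw [Finset.sum_eq_single b]
      · rw [he b hb]; ring
      · intro b' hb' hne
        rw [hf b' hb' b hb hne.symm, mul_zero]
      · intro h; exact absurd hb h
    have h2 := congrFun h1 i
    simp only [Pi.sub_apply, Pi.smul_apply, Finset.sum_apply, smul_eq_mul, Pi.zero_apply] at h2
    have h3 : (D : ℝ) * m i = ∑ b ∈ B, (e b * m b : ℝ) * f b i := by
      have : D * m i = ∑ b ∈ B, (e b * m b) * f b i := by linarith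
      exact_mod_cast this
    have hD0' : (D : ℝ) ≠ 0 := by exact_mod_cast hD0
    apply mul_left_cancel₀ hD0'
    rw [h3, Finset.mul_sum]
    refine Finset.sum_congr rfl fun b hb => ?_
    have h4 : (D : ℝ) = f b b * e b := by exact_mod_cast he b hb
    have h5 : (f b b : ℝ) ≠ 0 := by exact_mod_cast hf0 b hb
    rw [h4]
    field_simp
  · intro b hb
    have h5 : (f b b : ℝ) ≠ 0 := by exact_mod_cast hf0 b hb
    refine ⟨f b, hfL b hb, hf0 b hb, fun i => ?_⟩
    field_simp

/-- The point of the space of solutions with given free coordinates. -/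
noncomputable def sol (B : Finset I) (s : I → I → ℝ) (t : I → ℝ) : I → ℝ := fun i =>
  if i ∈ B then -∑ f ∈ Bᶜ, s i f * t f else t i

lemma sol_free {B : Finset I} {s : I → I → ℝ} {t : I → ℝ} {i : I} (h : i ∉ B) :
    sol B s t i = t i := by simp [sol, h]

lemma sol_pivot {B : Finset I} {s : I → I → ℝ} {t : I → ℝ} {i : I} (h : i ∈ B) :
    sol B s t i = -∑ f ∈ Bᶜ, s i f * t f := by simp [sol, h]

lemma Ech.row {L : AddSubgroup (I → ℤ)} {B : Finset I} {s : I → I → ℝ} (h : Ech L B s)
    (t : I → ℝ) {b : I} (hb : b ∈ B) : ∑ i, s b i * sol B s t i = 0 := by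
  rw [← Finset.sum_add_sum_compl B]
  have h1 : ∑ i ∈ B, s b i * sol B s t i = sol B s t b := by
    rw [Finset.sum_eq_single b]
    · rw [h.one b hb, one_mul]
    · intro b' hb' hne
      rw [h.zero b hb b' hb' hne, zero_mul]
    · intro h'; exact absurd hb h'
  have h2 : ∑ i ∈ Bᶜ, s b i * sol B s t i = ∑ i ∈ Bᶜ, s b i * t i := by
    refine Finset.sum_congr rfl fun i hi => ?_
    rw [sol_free (Finset.mem_compl.mp hi)]
  rw [h1, h2, sol_pivot hb]
  ring

lemma Ech.sol_rel {L : AddSubgroup (I → ℤ)} {B : Finset I} {s : I → I → ℝ} (h : Ech L B s)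
    (t : I → ℝ) : ∀ m ∈ L, ∑ i, (m i : ℝ) * sol B s t i = 0 := by
  intro m hm
  have h1 : ∑ i, (m i : ℝ) * sol B s t i = ∑ b ∈ B, (m b : ℝ) * ∑ i, s b i * sol B s t i := by
    calc ∑ i, (m i : ℝ) * sol B s t i
        = ∑ i, (∑ b ∈ B, (m b : ℝ) * s b i) * sol B s t i := by
          refine Finset.sum_congr rfl fun i _ => ?_
          rw [← h.exp m hm i]
      _ = ∑ i, ∑ b ∈ B, (m b : ℝ) * s b i * sol B s t i := by
          refine Finset.sum_congr rfl fun i _ => ?_
          rw [Finset.sum_mul]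
      _ = ∑ b ∈ B, ∑ i, (m b : ℝ) * s b i * sol B s t i := Finset.sum_comm
      _ = _ := by
          refine Finset.sum_congr rfl fun b _ => ?_
          rw [Finset.mul_sum]
          exact Finset.sum_congr rfl fun i _ => by ring
  rw [h1]
  exact Finset.sum_eq_zero fun b hb => by rw [h.row t hb, mul_zero]

end ech

end Pool.Agent.TH571.GP
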