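import Pool.Agent.W432.PC.Final

set_option autoImplicit false

/-!
Linear independence of solutions `∏ j, (x - α j) ^ (ν j) * (polynomials)`, by the eigenvalues of a
residue.
-/

open Polynomial Pool.Agent.W432.PC

namespace Pool.Agent.TH571.GP

section field

variable {K : Type*} [Field K] {n r : ℕ}

lemma exists_factor (a : K) {Z : Fin r → K[X]} {i₀ : Fin r} (d : ℕ) (hd : (Z i₀).natDegree ≤ d)
    (h : Z i₀ ≠ 0) : ∃ (k : ℕ) (Y : Fin r → K[X]), (∀ i, Z i = (X - C a) ^ k * Y i) ∧
      ∃ i, (Y i).eval a ≠ 0 := by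
  induction d generalizing Z with
  | zero =>
    refine ⟨0, Z, fun i => by simp, i₀, ?_⟩
    obtain ⟨c, hc⟩ := natDegree_eq_zero.mp (Nat.le_zero.mp hd)
    rw [← hc, eval_C]
    intro h0
    rw [h0, map_zero] at hc
    exact h hc.symm
  | succ d ih =>
    by_cases hex : ∃ i, (Z i).eval a ≠ 0
    · exact ⟨0, Z, fun i => by simp, hex⟩
    · push Not at hex
      have hdvd : ∀ i, ∃ W, Z i = (X - C a) * W := fun i => dvd_iff_isRoot.mpr (hex i)
      choose W hW using hdvd
      have hW0 : W i₀ ≠ 0 := fun h0 => h (by rw [hW, h0, mul_zero])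
      have hdeg : (W i₀).natDegree ≤ d := by
        have h1 : (Z i₀).natDegree = (X - C a).natDegree + (W i₀).natDegree := by
          rw [hW i₀, natDegree_mul (X_sub_C_ne_zero a) hW0]
        rw [natDegree_X_sub_C] at h1
        omega
      obtain ⟨k, Y, hY, hi⟩ := ih hdeg hW0
      refine ⟨k + 1, Y, fun i => ?_, hi⟩
      rw [hW i, hY i, pow_succ]; ring

lemma eval_T_self (α : Fin n → K) (j : Fin n) : (T α).eval (α j) = 0 := by
  rw [T_eq j]; simp

lemma eval_Tc_other (α : Fin n → K) {i j : Fin n} (h : i ≠ j) : (Tc α i).eval (α j) = 0 := by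
  unfold Tc
  rw [eval_prod, Finset.prod_eq_zero (Finset.mem_erase.mpr ⟨h.symm, Finset.mem_univ j⟩)]
  simp

lemma eval_Tc_self {α : Fin n → K} (hα : Function.Injective α) (j : Fin n) :
    (Tc α j).eval (α j) ≠ 0 := by
  unfold Tc
  rw [eval_prod]
  refine Finset.prod_ne_zero_iff.mpr fun i hi => ?_
  simp only [eval_sub, eval_X, eval_C]
  rw [sub_ne_zero]
  exact fun h => (Finset.mem_erase.mp hi).1 (hα h).symm

/-- A solution `∏ j, (x - α j) ^ (ν j) Z(x)` gives an eigenvector of each residue. -/
lemma exists_eigen {α : Fin n → K} (hα : Function.Injective α)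
    (A : Fin n → Matrix (Fin r) (Fin r) K) (ν : Fin n → K) {Z : Fin r → K[X]} (hZ : Z ≠ 0)
    (hsol : ∀ i, T α * derivative (Z i) + (∑ j, C (ν j) * Tc α j) * Z i = (B α A).mulVec Z i)
    (j : Fin n) : ∃ (k : ℕ) (Y : Fin r → K[X]), (∀ i, Z i = (X - C (α j)) ^ k * Y i) ∧
      (fun i => (Y i).eval (α j)) ≠ 0 ∧
      (A j).mulVec (fun i => (Y i).eval (α j)) = (ν j + k) • (fun i => (Y i).eval (α j)) := by
  classical
  obtain ⟨i₀, hi₀⟩ : ∃ i, Z i ≠ 0 := by
    by_contra hno
    push Not at hno
    exact hZ (funext hno)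
  obtain ⟨k, Y, hY, i₁, hi₁⟩ := exists_factor (α j) (Z i₀).natDegree le_rfl hi₀
  refine ⟨k, Y, hY, fun h0 => hi₁ (congrFun h0 i₁), ?_⟩
  set P : K[X] := (X - C (α j)) ^ k with hP
  have hP0 : P ≠ 0 := pow_ne_zero _ (X_sub_C_ne_zero _)
  have hTP : T α * derivative P = ((k : K[X]) * Tc α j) * P := by
    have h1 := T_mul_derivative_prod α (Pi.single j k)
    have h2 : ∏ i, (X - C (α i)) ^ (Pi.single j k : Fin n → ℕ) i = P := by
      rw [Finset.prod_eq_single j]
      · simp [hP]
      · intro i _ hi; simp [hi]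
      · simp
    have h3 : ∑ i, (((Pi.single j k : Fin n → ℕ) i : ℕ) : K[X]) * Tc α i = (k : K[X]) * Tc α j := by
      rw [Finset.sum_eq_single j]
      · simp
      · intro i _ hi; simp [hi]
      · simp
    rw [h2, h3] at h1
    exact h1
  have hZP : Z = P • Y := by ext1 i; rw [hY i]; rfl
  have hY' : ∀ i, (k : K[X]) * Tc α j * Y i + T α * derivative (Y i) +
      (∑ j, C (ν j) * Tc α j) * Y i = (B α A).mulVec Y i := by
    intro i
    apply mul_left_cancel₀ hP0
    have h1 := hsol i
    rw [hZP, Matrix.mulVec_smul, Pi.smul_apply, Pi.smul_apply, smul_eq_mul, smul_eq_mul,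
      derivative_mul] at h1
    calc P * ((k : K[X]) * Tc α j * Y i + T α * derivative (Y i) +
          (∑ j, C (ν j) * Tc α j) * Y i)
        = ((k : K[X]) * Tc α j * P) * Y i + P * (T α * derivative (Y i)) +
          (∑ j, C (ν j) * Tc α j) * (P * Y i) := by ring
      _ = T α * (derivative P * Y i + P * derivative (Y i)) +
          (∑ j, C (ν j) * Tc α j) * (P * Y i) := by rw [← hTP]; ring
      _ = _ := h1
  set τ : K := (Tc α j).eval (α j) with hτ
  have hτ0 : τ ≠ 0 := eval_Tc_self hα j
  funext i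
  have h1 := congrArg (Polynomial.eval (α j)) (hY' i)
  have h2 : eval (α j) (∑ j', C (ν j') * Tc α j') = ν j * τ := by
    rw [eval_finsetSum, Finset.sum_eq_single j]
    · simp [hτ]
    · intro j' _ hj'
      rw [eval_mul, eval_Tc_other α hj', mul_zero]
    · simp
  have h3 : eval (α j) ((B α A).mulVec Y i) = τ * (A j).mulVec (fun i => (Y i).eval (α j)) i := by
    unfold B
    simp only [Matrix.mulVec, dotProduct, Matrix.sum_apply, Matrix.smul_apply, Matrix.map_apply,
      smul_eq_mul]
    rw [eval_finsetSum, Finset.mul_sum]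
    refine Finset.sum_congr rfl fun i' _ => ?_
    rw [eval_mul, eval_finsetSum, Finset.sum_eq_single j]
    · simp only [eval_mul, eval_C]
      rw [← hτ]; ring
    · intro j' _ hj'
      rw [eval_mul, eval_Tc_other α hj', zero_mul]
    · simp
  rw [eval_add, eval_add, eval_mul, eval_mul, eval_mul, eval_mul, h2, h3, eval_T_self, zero_mul,
    add_zero] at h1
  simp only [eval_natCast] at h1
  rw [← hτ] at h1
  apply mul_left_cancel₀ hτ0
  rw [← h1]
  simp only [Pi.smul_apply, smul_eq_mul]
  ring

lemma root_of_eigen {A : Matrix (Fin r) (Fin r) K} {v : Fin r → K} (hv : v ≠ 0) {μ : K}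
    (h : A.mulVec v = μ • v) : A.charpoly.eval μ = 0 := by
  have h1 : Module.End.HasEigenvector (Matrix.toLin' A) μ v := by
    rw [Module.End.hasEigenvector_iff, Module.End.mem_eigenspace_iff]
    exact ⟨by rw [Matrix.toLin'_apply]; exact h, hv⟩
  have h2 := Module.End.hasEigenvalue_of_hasEigenvector h1
  rw [Module.End.hasEigenvalue_iff_isRoot_charpoly, Matrix.charpoly_toLin'] at h2
  exact h2

end field

section ring

variable {R : Type*} [CommRing R] {n r : ℕ}

/-- The system `y' = ∑ j, A j / (x - α j) y` has a fundamental matrix of algebraic solutions, the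
`k`-th column of which is `∏ j, (x - α j) ^ (ν k j)`, with rational exponents `ν k j`, times the
`k`-th column of a matrix `Z` of polynomials over the fraction field, `det Z ≠ 0`. -/
def HasAlgebraicSolutions (α : Fin n → R) (A : Fin n → Matrix (Fin r) (Fin r) R) [IsDomain R] :
    Prop :=
  ∃ (ν : Fin r → Fin n → ℚ) (Z : Matrix (Fin r) (Fin r) (FractionRing R)[X]), Z.det ≠ 0 ∧
    ∀ k i, T (fun j => algebraMap R (FractionRing R) (α j)) * derivative (Z i k) +
      (∑ j, C ((ν k j : ℚ) : FractionRing R) *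
        Tc (fun j => algebraMap R (FractionRing R) (α j)) j) * Z i k =
    (B (fun j => algebraMap R (FractionRing R) (α j))
      (fun j => (A j).map (algebraMap R (FractionRing R)))).mulVec (fun i' => Z i' k) i

/-- Solutions with different exponents modulo one at one of the points are independent. -/
theorem algebraic_of_monomial [IsDomain R] [CharZero R] {α : Fin n → R}
    (hα : ∀ i j, i ≠ j → IsUnit (α i - α j)) {A : Fin n → Matrix (Fin r) (Fin r) R}
    {lam : Fin n → Fin r → ℚ} (hlam : ∀ j, HasExponents (A j) (lam j)) (σ : Fin n → Equiv.Perm (Fin r))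
    (j₀ : Fin n) (hdist : ∀ l l', l ≠ l' → ¬ ∃ z : ℤ, lam j₀ l - lam j₀ l' = z)
    (hsol : ∀ l, HasMonomialSolution α A (fun j => lam j (σ j l))) : HasAlgebraicSolutions α A := by
  classical
  have := charZero_fraction (R := R)
  have hinj : Function.Injective (fun j => algebraMap R (FractionRing R) (α j)) := by
    intro i j hij
    by_contra hne
    have h1 := (hα i j hne).map (algebraMap R (FractionRing R))
    rw [map_sub] at h1
    simp only at hij
    rw [hij, sub_self] at h1
    exact not_isUnit_zero h1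
  choose Z hZ0 hZ using hsol
  refine ⟨fun k j => lam j (σ j k), Matrix.of fun i k => Z k i, ?_, fun k i => hZ k i⟩
  set K := FractionRing R with hK
  set M : Matrix (Fin r) (Fin r) K := (A j₀).map (algebraMap R K) with hM
  set a : K := algebraMap R K (α j₀) with ha
  have hev : ∀ k, Module.End.HasEigenvector (Matrix.toLin' M) ((lam j₀ (σ j₀ k) : ℚ) : K)
      (fun i => (Z k i).eval a) := by
    intro k
    obtain ⟨m, Y, hY, hne, heig⟩ := exists_eigen hinj
      (fun j => (A j).map (algebraMap R K)) (fun j => ((lam j (σ j k) : ℚ) : K)) (hZ0 k)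
      (hZ k) j₀
    have h1 := root_of_eigen hne heig
    have h2 : M.charpoly = ∏ l, (X - C ((lam j₀ l : ℚ) : K)) := by
      rw [hM, Matrix.charpoly_map]
      exact hlam j₀
    rw [← hM, h2, eval_prod, Finset.prod_eq_zero_iff] at h1
    obtain ⟨l', -, hl'⟩ := h1
    simp only [eval_sub, eval_X, eval_C] at hl'
    have h3 : (lam j₀ (σ j₀ k) : ℚ) + m = lam j₀ l' := by
      have h4 : (((lam j₀ (σ j₀ k) : ℚ) + m : ℚ) : K) = ((lam j₀ l' : ℚ) : K) := by
        push_cast
        exact sub_eq_zero.mp hl'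
      exact_mod_cast h4
    have h4 : l' = σ j₀ k := by
      by_contra hne'
      exact hdist l' (σ j₀ k) hne' ⟨m, by rw [← h3]; push_cast; ring⟩
    rw [h4] at h3
    have h5 : m = 0 := by
      have : (m : ℚ) = 0 := by linarith
      exact_mod_cast this
    subst h5
    have h6 : ∀ i, Z k i = Y i := fun i => by rw [hY i, pow_zero, one_mul]
    rw [Module.End.hasEigenvector_iff, Module.End.mem_eigenspace_iff, Matrix.toLin'_apply]
    simp only [h6]
    refine ⟨?_, hne⟩
    rw [Nat.cast_zero, add_zero] at heig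
    exact heig
  have hli : LinearIndependent K (fun k : Fin r => fun i => (Z k i).eval a) := by
    refine Module.End.eigenvectors_linearIndependent' (Matrix.toLin' M)
      (fun k => ((lam j₀ (σ j₀ k) : ℚ) : K)) ?_ _ hev
    intro k k' hkk
    simp only [Rat.cast_inj] at hkk
    by_contra hne
    exact hdist (σ j₀ k) (σ j₀ k') (fun h => hne ((σ j₀).injective h)) ⟨0, by rw [hkk]; simp⟩
  intro hdet
  have h1 : (Matrix.of fun i k => (Z k i).eval a : Matrix (Fin r) (Fin r) K).det = 0 := by
    have h2 := congrArg (Polynomial.eval a) hdet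
    rw [Polynomial.eval_zero] at h2
    rw [← h2, ← Polynomial.coe_evalRingHom, RingHom.map_det]
    congr 1
  have h2 : IsUnit (Matrix.of fun k i => (Z k i).eval a : Matrix (Fin r) (Fin r) K) := by
    rw [← Matrix.linearIndependent_rows_iff_isUnit]
    exact hli
  rw [Matrix.isUnit_iff_isUnit_det, isUnit_iff_ne_zero, ← Matrix.det_transpose] at h2
  exact h2 h1

end ring

end Pool.Agent.TH571.GP
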