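import Pool.Agent.TH571.GP.Transfer
import Pool.Agent.TH571.GP.Eig

set_option autoImplicit false

/-!
Systems with the exponents of a direct sum of systems of rank one: solutions
`∏ j, (x - α j) ^ (ν j) * (polynomials)` from the equality case of the Weyl inequalities.
-/

open Polynomial Pool.Agent.W432.PC Pool.Agent.W432.TC

namespace Pool.Agent.TH571.GP

variable {n r : ℕ}

lemma sumRel_inl (σ : Option (Fin n) → Equiv.Perm (Fin r)) (l : Fin r) (j : Fin n) (l' : Fin r) :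
    sumRel σ l (Sum.inl (j, l')) = if l' = σ (some j) l then 1 else 0 := rfl

lemma sumRel_inr (σ : Option (Fin n) → Equiv.Perm (Fin r)) (l : Fin r) (l' : Fin r) :
    sumRel σ l (Sum.inr l') = -(if l' = σ none l then 1 else 0) := rfl

/-- The relations of the exponents of direct sums. -/
def Lsig (σ : Option (Fin n) → Equiv.Perm (Fin r)) : AddSubgroup (ExponentIndex n r → ℤ) where
  carrier := {m | ∀ j l, m (Sum.inl (j, σ (some j) l)) + m (Sum.inr (σ none l)) = 0}
  zero_mem' := by intro j l; simp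
  add_mem' := by
    intro a b ha hb j l
    have h1 := ha j l
    have h2 := hb j l
    simp only [Pi.add_apply]
    omega
  neg_mem' := by
    intro a ha j l
    have h1 := ha j l
    simp only [Pi.neg_apply]
    omega

lemma mem_Lsig {σ : Option (Fin n) → Equiv.Perm (Fin r)} {m : ExponentIndex n r → ℤ} :
    m ∈ Lsig σ ↔ ∀ j l, m (Sum.inl (j, σ (some j) l)) + m (Sum.inr (σ none l)) = 0 := Iff.rfl

lemma sumRel_mem (σ : Option (Fin n) → Equiv.Perm (Fin r)) (l : Fin r) : sumRel σ l ∈ Lsig σ := by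
  rw [mem_Lsig]
  intro j l'
  rw [sumRel_inl, sumRel_inr]
  by_cases h : l' = l
  · simp [h]
  · simp [h]

lemma sum_Lsig {K : Type*} [Field K] {σ : Option (Fin n) → Equiv.Perm (Fin r)}
    {m : ExponentIndex n r → ℤ} (hm : m ∈ Lsig σ) (x : ExponentIndex n r → K) :
    ∑ i, (m i : K) * x i = ∑ l, -(m (Sum.inr (σ none l)) : K) *
      (∑ j, x (Sum.inl (j, σ (some j) l)) - x (Sum.inr (σ none l))) := by
  rw [Fintype.sum_sum_type, Fintype.sum_prod_type]
  have h1 : ∀ j : Fin n, ∑ l, (m (Sum.inl (j, l)) : K) * x (Sum.inl (j, l)) =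
      ∑ l, -(m (Sum.inr (σ none l)) : K) * x (Sum.inl (j, σ (some j) l)) := by
    intro j
    rw [← Equiv.sum_comp (σ (some j))]
    refine Finset.sum_congr rfl fun l _ => ?_
    have h2 := hm j l
    have h3 : m (Sum.inl (j, σ (some j) l)) = -m (Sum.inr (σ none l)) := by omega
    rw [h3]; push_cast; ring
  have h2 : ∑ l, (m (Sum.inr l) : K) * x (Sum.inr l) =
      ∑ l, (m (Sum.inr (σ none l)) : K) * x (Sum.inr (σ none l)) :=
    (Equiv.sum_comp (σ none) _).symm
  rw [Finset.sum_congr rfl fun j _ => h1 j, h2, Finset.sum_comm, ← Finset.sum_add_distrib]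
  refine Finset.sum_congr rfl fun l _ => ?_
  rw [← Finset.mul_sum]; ring

lemma indep_Lsig {σ : Option (Fin n) → Equiv.Perm (Fin r)} {m : ExponentIndex n r → ℤ}
    (hm : m ∉ Lsig σ) {q : ℤ} (hq : q ≠ 0) :
    ∃ f : Fin (r + 1) → ExponentIndex n r → ℤ, LinearIndependent ℤ f ∧
      ∀ k, f k ∈ Lsig σ ⊔ AddSubgroup.zmultiples (q • m) := by
  refine ⟨Fin.cons (q • m) (sumRel σ), ?_, ?_⟩
  · rw [Fintype.linearIndependent_iff]
    intro g hg
    rw [Fin.sum_univ_succ] at hg
    simp only [Fin.cons_zero, Fin.cons_succ] at hg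
    rw [mem_Lsig] at hm
    push Not at hm
    obtain ⟨j, l, hjl⟩ := hm
    have h1 := congrFun hg (Sum.inl (j, σ (some j) l))
    have h2 := congrFun hg (Sum.inr (σ none l))
    simp only [Pi.add_apply, Pi.smul_apply, Finset.sum_apply, smul_eq_mul, Pi.zero_apply,
      sumRel_inl, sumRel_inr, EmbeddingLike.apply_eq_iff_eq, mul_ite, mul_one, mul_zero, mul_neg,
      Finset.sum_neg_distrib, Finset.sum_ite_eq, Finset.mem_univ, if_true] at h1 h2
    have h3 : g 0 * q * (m (Sum.inl (j, σ (some j) l)) + m (Sum.inr (σ none l))) = 0 := by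
      linarith
    have h4 : g 0 = 0 := by
      rcases mul_eq_zero.mp h3 with h5 | h5
      · rcases mul_eq_zero.mp h5 with h6 | h6
        · exact h6
        · exact absurd h6 hq
      · exact absurd h5 hjl
    intro k
    refine Fin.cases h4 (fun l' => ?_) k
    have h5 := congrFun hg (Sum.inr (σ none l'))
    simp only [Pi.add_apply, Pi.smul_apply, Finset.sum_apply, smul_eq_mul, Pi.zero_apply,
      sumRel_inr, EmbeddingLike.apply_eq_iff_eq, mul_ite, mul_one, mul_zero, mul_neg,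
      Finset.sum_neg_distrib, Finset.sum_ite_eq, Finset.mem_univ, if_true, h4, zero_mul, zero_add]
      at h5
    omega
  · intro k
    refine Fin.cases ?_ (fun l => ?_) k
    · rw [Fin.cons_zero]
      exact (le_sup_right : AddSubgroup.zmultiples (q • m) ≤ _) (AddSubgroup.mem_zmultiples _)
    · rw [Fin.cons_succ]
      exact (le_sup_left : Lsig σ ≤ _) (sumRel_mem σ l)

/-- The point which is approached. -/
noncomputable def tgt (σ : Option (Fin n) → Equiv.Perm (Fin r)) (l₀ : Fin r) :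
    ExponentIndex n r → ℝ :=
  Sum.elim (fun p => if p.2 = σ (some p.1) l₀ then 1 / ((n : ℝ) + 1) else 2 / ((n : ℝ) + 1))
    (fun l => if l = σ none l₀ then n / ((n : ℝ) + 1) else ((n : ℝ) - 1) / ((n : ℝ) + 1))

lemma tgt_sum (σ : Option (Fin n) → Equiv.Perm (Fin r)) (l₀ l : Fin r) :
    ∑ j, tgt σ l₀ (Sum.inl (j, σ (some j) l)) - tgt σ l₀ (Sum.inr (σ none l)) =
      if l = l₀ then 0 else 1 := by
  have hn : (n : ℝ) + 1 ≠ 0 := by positivity
  simp only [tgt, Sum.elim_inl, Sum.elim_inr, EmbeddingLike.apply_eq_iff_eq]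
  split_ifs with h
  · simp only [Finset.sum_const, Finset.card_univ, Fintype.card_fin, nsmul_eq_mul]
    field_simp; ring
  · simp only [Finset.sum_const, Finset.card_univ, Fintype.card_fin, nsmul_eq_mul]
    field_simp; ring

lemma tgt_coset (σ : Option (Fin n) → Equiv.Perm (Fin r)) (l₀ : Fin r) :
    ∀ m ∈ Lsig σ, ∃ z : ℤ, ∑ i, (m i : ℝ) * (tgt σ l₀ i - ((0 : ExponentIndex n r → ℚ) i : ℚ)) = z := by
  intro m hm
  simp only [Pi.zero_apply, Rat.cast_zero, sub_zero]
  rw [sum_Lsig hm]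
  refine ⟨∑ l, -(m (Sum.inr (σ none l))) * (if l = l₀ then 0 else 1), ?_⟩
  push_cast
  refine Finset.sum_congr rfl fun l _ => ?_
  rw [tgt_sum]

lemma near_wt {a : ℤ} {q : ℚ} {y δ : ℝ} (h0 : δ ≤ y) (h1 : y + δ ≤ 1)
    (h : ∃ z : ℤ, |(a : ℝ) * q - y - z| < δ) : |((wt a q : ℚ) : ℝ) - y| < δ := by
  obtain ⟨z, hz⟩ := h
  obtain ⟨e, he⟩ := wt_eq a q
  have he' : (a : ℝ) * q = ((wt a q : ℚ) : ℝ) + e := by
    have := congrArg (fun q : ℚ => (q : ℝ)) he
    push_cast at this
    exact this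
  have h2 : (0 : ℝ) ≤ ((wt a q : ℚ) : ℝ) := by exact_mod_cast wt_nonneg a q
  have h3 : ((wt a q : ℚ) : ℝ) ≤ 1 := by exact_mod_cast wt_le_one a q
  rw [he'] at hz
  have h4 := abs_lt.mp hz
  have h5 : e = z := by
    have h6 : (e : ℝ) - z < 1 := by linarith
    have h7 : -1 < (e : ℝ) - z := by linarith
    have h8 : e - z < 1 := by exact_mod_cast h6
    have h9 : -1 < e - z := by exact_mod_cast h7
    omega
  subst h5
  convert hz using 2
  ring

universe u

/-- The equality case of the Weyl inequalities near the chosen point. -/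
theorem monomial_or (hn : 2 ≤ n) {R : Type u} [CommRing R] [IsDomain R] [CharZero R]
    [Algebra.FiniteType ℤ R] (α : Fin n → R) (hα : ∀ i j, i ≠ j → IsUnit (α i - α j))
    (A : Fin n → Matrix (Fin r) (Fin r) R) (lam : Fin n → Fin r → ℚ) (phi : Fin r → ℚ)
    (hlam : ∀ j, HasExponents (A j) (lam j)) (hphi : HasExponents (∑ j, A j) phi)
    (N : ℕ) (hN : 0 < N) (hNlam : ∀ j l, ∃ m : ℤ, (N : ℚ) * lam j l = m)
    (hNphi : ∀ l, ∃ m : ℤ, (N : ℚ) * phi l = m) (a : ℤ) (ha : IsCoprime a (N : ℤ))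
    (σ : Option (Fin n) → Equiv.Perm (Fin r))
    (hσ : ∀ l, ∃ z : ℤ, ∑ j, lam j (σ (some j) l) - phi (σ none l) = z) (l₀ : Fin r)
    (hnear : ∀ i : ExponentIndex n r, ∃ z : ℤ,
      |(a : ℝ) * ((Sum.elim (fun p => lam p.1 p.2) phi : ExponentIndex n r → ℚ) i : ℚ) -
        tgt σ l₀ i - z| < 1 / (4 * ((n : ℝ) + 1))) :
    HasMonomialSolution α A (fun j => lam j (σ (some j) l₀)) ∨
      ((∃ g : R, g ≠ 0 ∧ ∃ P₀ : ℕ, ∀ p : ℕ, p.Prime → P₀ < p → (N : ℤ) ∣ a * p + 1 →
        ∀ (𝔪 : Ideal R) [𝔪.IsMaximal], (p : R) ∈ 𝔪 → g ∉ 𝔪 → ¬ PCurvZeroAt α A 𝔪) ∧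
      ¬ CondII α A) := by
  classical
  refine or_iff_not_imp_left.mpr fun hno => ?_
  have hn' : (2 : ℝ) ≤ n := by exact_mod_cast hn
  have hn1 : (0 : ℝ) < (n : ℝ) + 1 := by linarith
  have hr : 0 < r := l₀.pos
  set δ : ℝ := 1 / (4 * ((n : ℝ) + 1)) with hδ
  have hδ0 : 0 < δ := by positivity
  have hδn : 4 * (((n : ℝ) + 1) * δ) = 1 := by rw [hδ]; field_simp
  -- the weights
  have hW : ∀ j l, |((wt a (lam j l) : ℚ) : ℝ) - tgt σ l₀ (Sum.inl (j, l))| < δ := by
    intro j l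
    have h := hnear (Sum.inl (j, l))
    simp only [Sum.elim_inl] at h
    refine near_wt ?_ ?_ h
    · simp only [tgt, Sum.elim_inl]
      split_ifs
      · rw [le_div_iff₀ hn1]; linarith
      · rw [le_div_iff₀ hn1]; linarith
    · simp only [tgt, Sum.elim_inl]
      split_ifs
      · have h2 : 1 / ((n : ℝ) + 1) = 4 * δ := by rw [hδ]; field_simp
        rw [h2]; nlinarith
      · have h2 : 2 / ((n : ℝ) + 1) = 8 * δ := by rw [hδ]; field_simp; norm_num
        rw [h2]; nlinarith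
  have hU : ∀ l, |((wt a (phi l) : ℚ) : ℝ) - tgt σ l₀ (Sum.inr l)| < δ := by
    intro l
    have h := hnear (Sum.inr l)
    simp only [Sum.elim_inr] at h
    refine near_wt ?_ ?_ h
    · simp only [tgt, Sum.elim_inr]
      split_ifs
      · rw [le_div_iff₀ hn1]; nlinarith
      · rw [le_div_iff₀ hn1]; nlinarith
    · have h2 : (n : ℝ) / ((n : ℝ) + 1) = 1 - 4 * δ := by
        rw [hδ]; field_simp; ring
      have h3 : ((n : ℝ) - 1) / ((n : ℝ) + 1) = 1 - 8 * δ := by
        rw [hδ]; field_simp; ring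
      simp only [tgt, Sum.elim_inr]
      split_ifs
      · rw [h2]; linarith
      · rw [h3]; linarith
  -- the sums
  have hS : ∀ l, ∑ j, wt a (lam j (σ (some j) l)) - wt a (phi (σ none l)) =
      if l = l₀ then 0 else 1 := by
    intro l
    obtain ⟨z, hz⟩ := hσ l
    choose e he using fun j => wt_eq a (lam j (σ (some j) l))
    obtain ⟨e', he'⟩ := wt_eq a (phi (σ none l))
    have h1 : ∑ j, wt a (lam j (σ (some j) l)) - wt a (phi (σ none l)) =
        ((a * z - ∑ j, e j + e' : ℤ) : ℚ) := by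
      push_cast
      rw [← hz]
      have h2 : ∀ j, wt a (lam j (σ (some j) l)) = a * lam j (σ (some j) l) - e j := fun j => by
        rw [he j]; ring
      have h3 : wt a (phi (σ none l)) = a * phi (σ none l) - e' := by rw [he']; ring
      rw [Finset.sum_congr rfl fun j _ => h2 j, h3, Finset.sum_sub_distrib, ← Finset.mul_sum]
      ring
    have h4 : |(((∑ j, wt a (lam j (σ (some j) l)) - wt a (phi (σ none l)) : ℚ)) : ℝ) -
        (if l = l₀ then 0 else 1)| < 1 := by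
      rw [← tgt_sum σ l₀ l]
      push_cast
      have h5 : ∑ j, (((wt a (lam j (σ (some j) l)) : ℚ)) : ℝ) - ((wt a (phi (σ none l)) : ℚ) : ℝ) -
          (∑ j, tgt σ l₀ (Sum.inl (j, σ (some j) l)) - tgt σ l₀ (Sum.inr (σ none l))) =
          ∑ j, ((((wt a (lam j (σ (some j) l)) : ℚ)) : ℝ) - tgt σ l₀ (Sum.inl (j, σ (some j) l))) -
            (((wt a (phi (σ none l)) : ℚ) : ℝ) - tgt σ l₀ (Sum.inr (σ none l))) := by
        rw [Finset.sum_sub_distrib]; ring
      rw [h5]
      have h6 : |∑ j, ((((wt a (lam j (σ (some j) l)) : ℚ)) : ℝ) -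
          tgt σ l₀ (Sum.inl (j, σ (some j) l)))| ≤ n * δ := by
        refine (Finset.abs_sum_le_sum_abs _ _).trans ?_
        refine (Finset.sum_le_sum fun j _ => (hW j _).le).trans ?_
        simp
      have h7 := hU (σ none l)
      have h8 := abs_sub (∑ j, ((((wt a (lam j (σ (some j) l)) : ℚ)) : ℝ) -
          tgt σ l₀ (Sum.inl (j, σ (some j) l))))
            (((wt a (phi (σ none l)) : ℚ) : ℝ) - tgt σ l₀ (Sum.inr (σ none l)))
      linarith
    rw [h1] at h4 ⊢
    have h5 : |((a * z - ∑ j, e j + e' : ℤ) : ℝ) - ((if l = l₀ then 0 else 1 : ℤ) : ℝ)| < 1 := by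
      have h6 : (((a * z - ∑ j, e j + e' : ℤ) : ℚ) : ℝ) = ((a * z - ∑ j, e j + e' : ℤ) : ℝ) :=
        Rat.cast_intCast _
      rw [h6] at h4
      push_cast at h4 ⊢
      exact h4
    rw [← Int.cast_sub, ← Int.cast_abs] at h5
    have h6 : |(a * z - ∑ j, e j + e') - (if l = l₀ then 0 else 1 : ℤ)| < 1 := by exact_mod_cast h5
    have h7 : (a * z - ∑ j, e j + e') = (if l = l₀ then 0 else 1 : ℤ) := by
      rw [Int.abs_lt_one_iff] at h6
      omega
    rw [h7]; push_cast; rfl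
  choose τ hτ using fun j => exists_sort a (lam j)
  obtain ⟨τ', hτ'⟩ := exists_sort a phi
  let s₀ : Fin r := ⟨0, hr⟩
  let s₁ : Fin r := ⟨r - 1, by omega⟩
  have hwt_le : ∀ {x y : ℚ}, lexLE a x y → wt a x ≤ wt a y := by
    intro x y h
    rcases h with h | h
    · exact h.le
    · exact h.1.le
  have hlow : ∀ j, τ j s₀ = σ (some j) l₀ := by
    intro j
    by_contra hne
    have h1 := hwt_le (hτ j s₀ ((τ j).symm (σ (some j) l₀)) (by
      show (0 : ℕ) ≤ _; exact Nat.zero_le _))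
    rw [Equiv.apply_symm_apply] at h1
    have h1' : ((wt a (lam j (τ j s₀)) : ℚ) : ℝ) ≤ ((wt a (lam j (σ (some j) l₀)) : ℚ) : ℝ) := by
      exact_mod_cast h1
    have h2 := abs_lt.mp (hW j (τ j s₀))
    have h3 := abs_lt.mp (hW j (σ (some j) l₀))
    simp only [tgt, Sum.elim_inl, if_neg hne, if_true] at h2 h3
    have h4 : 1 / ((n : ℝ) + 1) = 4 * δ := by rw [hδ]; field_simp
    have h5 : 2 / ((n : ℝ) + 1) = 8 * δ := by rw [hδ]; field_simp; norm_num
    rw [h5] at h2
    rw [h4] at h3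
    linarith [h2.1, h3.2]
  have hhigh : τ' s₁ = σ none l₀ := by
    by_contra hne
    have h1 := hwt_le (hτ' (τ'.symm (σ none l₀)) s₁ (by
      show ((τ'.symm (σ none l₀) : Fin r) : ℕ) ≤ r - 1
      have := (τ'.symm (σ none l₀)).isLt
      omega))
    rw [Equiv.apply_symm_apply] at h1
    have h1' : ((wt a (phi (σ none l₀)) : ℚ) : ℝ) ≤ ((wt a (phi (τ' s₁)) : ℚ) : ℝ) := by
      exact_mod_cast h1
    have h2 := abs_lt.mp (hU (τ' s₁))
    have h3 := abs_lt.mp (hU (σ none l₀))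
    simp only [tgt, Sum.elim_inr, if_neg hne, if_true] at h2 h3
    have h4 : (n : ℝ) / ((n : ℝ) + 1) = 1 - 4 * δ := by rw [hδ]; field_simp; ring
    have h5 : ((n : ℝ) - 1) / ((n : ℝ) + 1) = 1 - 8 * δ := by rw [hδ]; field_simp; ring
    rw [h5] at h2
    rw [h4] at h3
    linarith [h2.2, h3.1]
  have heq0 : wt a (phi (τ' s₁)) = ∑ j, wt a (lam j (τ j s₀)) := by
    rw [hhigh, Finset.sum_congr rfl fun j _ => by rw [hlow j]]
    have := hS l₀
    rw [if_pos rfl] at this
    linarith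
  have hq : ∑ j, ∑ l, wt a (lam j (τ j l)) - ∑ l, wt a (phi (τ' l)) +
      ∑ j : Fin n, (((fun _ => s₀ : Fin n → Fin r) j : ℕ) : ℚ) = ((0 : ℤ) : ℚ) * r + (s₁ : ℕ) := by
    have h1 : ∑ j, ∑ l, wt a (lam j (τ j l)) = ∑ l, ∑ j, wt a (lam j (σ (some j) l)) := by
      rw [Finset.sum_comm (γ := Fin r)]
      refine Finset.sum_congr rfl fun j _ => ?_
      rw [Equiv.sum_comp (τ j) (fun l => wt a (lam j l)),
        Equiv.sum_comp (σ (some j)) (fun l => wt a (lam j l))]
    have h2 : ∑ l, wt a (phi (τ' l)) = ∑ l, wt a (phi (σ none l)) := by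
      rw [Equiv.sum_comp τ' (fun l => wt a (phi l)), Equiv.sum_comp (σ none) (fun l => wt a (phi l))]
    rw [h1, h2, ← Finset.sum_sub_distrib, Finset.sum_congr rfl fun l _ => hS l]
    have h3 : ∑ l : Fin r, (if l = l₀ then (0 : ℚ) else 1) = (r : ℚ) - 1 := by
      have h4 : ∀ l : Fin r, (if l = l₀ then (0 : ℚ) else 1) = 1 - if l = l₀ then 1 else 0 := by
        intro l; split_ifs <;> norm_num
      rw [Finset.sum_congr rfl fun l _ => h4 l, Finset.sum_sub_distrib]
      simp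
    rw [h3]
    have h4 : ((s₁ : Fin r) : ℕ) = r - 1 := rfl
    rw [h4, Nat.cast_sub (by omega : 1 ≤ r)]
    simp [s₀]
  have hmono : ¬ HasMonomialSolution α A (fun j => lam j (τ j s₀)) := by
    have : (fun j => lam j (τ j s₀)) = fun j => lam j (σ (some j) l₀) := by
      funext j; rw [hlow j]
    rw [this]
    exact hno
  have hmain := main α hα A A (Or.inl rfl) (fun j l => lam j (τ j l)) (fun l => phi (τ' l))
    (fun j => hasExponents_perm (hlam j) (τ j)) (hasExponents_perm hphi τ') N hN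
    (fun j l => hNlam j (τ j l)) (fun l => hNphi (τ' l)) a hτ hτ' (fun _ => s₀) s₁ 0 hq
    (by rw [Int.cast_zero, zero_add]; exact heq0.le) (fun _ => hmono)
  obtain ⟨g, hg, -, P₀, hP⟩ := hmain
  exact ⟨⟨g, hg, P₀, hP⟩, not_condII_of α A N hN a ha ⟨g, hg, P₀, hP⟩⟩

end Pool.Agent.TH571.GP
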