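import Pool.Agent.TH571.GP.Struct

set_option autoImplicit false

/-!
Cosets of exponents of a given spectral type, all of whose points satisfy the Weyl inequalities: the
classes in a suitable set of pivots have total multiplicity at least `r`.
-/

open Filter Topology

namespace Pool.Agent.TH571.GP

section ech2

variable {I : Type*} [Fintype I] [DecidableEq I]

/-- A two step echelon form: the pivots outside of `S` span all coordinates outside of `S`. -/
lemma exists_ech2 (L : AddSubgroup (I → ℤ)) (S : Finset I) :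
    ∃ B₁ B, B₁ ⊆ B ∧ Disjoint B₁ S ∧ B \ B₁ ⊆ S ∧ TS L B₁ ∧ ∃ s, Ech L B s ∧
      ∀ b ∈ B \ B₁, ∀ f ∉ S, f ∉ B → s b f = 0 := by
  classical
  obtain ⟨B₁, hB₁, hmax⟩ := Finset.exists_max_image
    (Finset.univ.filter fun B : Finset I => Disjoint B S ∧ TS L B) Finset.card
    ⟨∅, Finset.mem_filter.mpr ⟨Finset.mem_univ _, Finset.disjoint_empty_left _,
      fun b hb => absurd hb (Finset.notMem_empty b)⟩⟩
  simp only [Finset.mem_filter, Finset.mem_univ, true_and] at hB₁ hmax
  obtain ⟨hdisj, hTS₁⟩ := hB₁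
  obtain ⟨B, hBB, hTS, s, h⟩ := exists_ech L hTS₁
  have hsub : B \ B₁ ⊆ S := by
    intro b hb
    obtain ⟨hbB, hb1⟩ := Finset.mem_sdiff.mp hb
    by_contra hbS
    have h1 : TS L (insert b B₁) := by
      intro b' hb'
      have hb'B : b' ∈ B := by
        rcases Finset.mem_insert.mp hb' with rfl | h2
        · exact hbB
        · exact hBB h2
      obtain ⟨m, hm, h0, hmz⟩ := hTS b' hb'B
      refine ⟨m, hm, h0, fun b'' hb'' hne => hmz b'' ?_ hne⟩
      rcases Finset.mem_insert.mp hb'' with rfl | h2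
      · exact hbB
      · exact hBB h2
    have h2 := hmax (insert b B₁) ⟨by
      rw [Finset.disjoint_insert_left]; exact ⟨hbS, hdisj⟩, h1⟩
    rw [Finset.card_insert_of_notMem hb1] at h2
    omega
  refine ⟨B₁, B, hBB, hdisj, hsub, hTS₁, s, h, ?_⟩
  intro b hb f hfS hfB
  obtain ⟨hbB, hb1⟩ := Finset.mem_sdiff.mp hb
  by_contra hne
  obtain ⟨m, hm, h0, hmul⟩ := h.mult b hbB
  have hmf : m f ≠ 0 := by
    intro h1
    have h2 := hmul f
    rw [h1, Int.cast_zero] at h2
    rcases mul_eq_zero.mp h2.symm with h3 | h3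
    · exact h0 (by exact_mod_cast h3)
    · exact hne h3
  have hmB : ∀ b' ∈ B, b' ≠ b → m b' = 0 := by
    intro b' hb' hne'
    have h2 := hmul b'
    rw [h.zero b hbB b' hb' hne', mul_zero] at h2
    exact_mod_cast h2
  have hf1 : f ∉ B₁ := fun h1 => hfB (hBB h1)
  have h1 : TS L (insert f B₁) := by
    intro b' hb'
    rcases Finset.mem_insert.mp hb' with rfl | hb'
    · refine ⟨m, hm, hmf, fun b'' hb'' hne' => ?_⟩
      rcases Finset.mem_insert.mp hb'' with rfl | h2
      · exact absurd rfl hne'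
      · exact hmB b'' (hBB h2) (fun h3 => hb1 (h3 ▸ h2))
    · obtain ⟨m', hm', h0', hm'z⟩ := hTS₁ b' hb'
      have hbb' : m b' = 0 := hmB b' (hBB hb') (fun h3 => hb1 (h3 ▸ hb'))
      refine ⟨m f • m' - m' f • m, L.sub_mem (L.zsmul_mem hm' _) (L.zsmul_mem hm _), ?_, ?_⟩
      · simp only [Pi.sub_apply, Pi.smul_apply, smul_eq_mul]
        rw [hbb', mul_zero, sub_zero]
        exact mul_ne_zero hmf h0'
      · intro b'' hb'' hne'
        simp only [Pi.sub_apply, Pi.smul_apply, smul_eq_mul]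
        rcases Finset.mem_insert.mp hb'' with rfl | hb''
        · ring
        · rw [hm'z b'' hb'' hne', hmB b'' (hBB hb'') (fun h3 => hb1 (h3 ▸ hb''))]; ring
  have h2 := hmax (insert f B₁) ⟨by
    rw [Finset.disjoint_insert_left]; exact ⟨hfS, hdisj⟩, h1⟩
  rw [Finset.card_insert_of_notMem hf1] at h2
  omega

end ech2

variable {P : Type*} [Fintype P] [DecidableEq P] {r : ℕ}

/-- The class of a coordinate. -/
def cls (ty : P → Fin r → Fin r) (i : P × Fin r) : P × Fin r := (i.1, ty i.1 i.2)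

/-- The multiplicity of a class. -/
def mlt (ty : P → Fin r → Fin r) (j : P × Fin r) : ℕ :=
  (Finset.univ.filter fun l => ty j.1 l = j.2).card

/-- All points of the coset of class variables satisfy the Weyl inequalities. -/
def ExcT (ty : P → Fin r → Fin r) (Λ : AddSubgroup (P × Fin r → ℤ)) (c : P × Fin r → ℝ) : Prop :=
  ∀ g : P × Fin r → ℝ, (∀ m ∈ Λ, ∑ j, (m j : ℝ) * (g j - c j) = 0) → SW (fun i => g (cls ty i))

lemma weighted (ty : P → Fin r → Fin r) {Λ : AddSubgroup (P × Fin r → ℤ)} {c : P × Fin r → ℝ}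
    (H : ExcT ty Λ c) (p₀ : P) (big : P → Fin r) :
    ∃ B₁ : Finset (P × Fin r), TS Λ B₁ ∧ (∀ b ∈ B₁, b.1 = p₀ ∨ b.2 ≠ big b.1) ∧
      r ≤ ∑ b ∈ B₁, mlt ty b := by
  classical
  let S : Finset (P × Fin r) := Finset.univ.filter fun j => j.1 ≠ p₀ ∧ j.2 = big j.1
  obtain ⟨B₁, B, hBB, hdisj, hsub, hTS₁, s, h, hz⟩ := exists_ech2 Λ S
  refine ⟨B₁, hTS₁, fun b hb => ?_, ?_⟩
  · by_contra hno
    push Not at hno
    exact Finset.disjoint_left.mp hdisj hb (by simp [S, hno.1, hno.2])
  by_contra hlt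
  push Not at hlt
  set η : ℝ := 1 / (r + 1) with hη
  have hη0 : 0 < η := by positivity
  let cc : P → ℝ := fun p => if (p, big p) ∈ B then
    c (p, big p) + ∑ f ∈ Bᶜ, s (p, big p) f * c f else 0
  let κ : P → ℝ := fun p => if p = p₀ then η - ∑ q ∈ Finset.univ.erase p₀, cc q else cc p
  have hκ : ∑ p, κ p = η := by
    rw [← Finset.add_sum_erase _ _ (Finset.mem_univ p₀)]
    have h1 : ∑ p ∈ Finset.univ.erase p₀, κ p = ∑ p ∈ Finset.univ.erase p₀, cc p := by
      refine Finset.sum_congr rfl fun p hp => ?_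
      simp only [κ, if_neg (Finset.mem_erase.mp hp).1]
    rw [h1]
    simp [κ]
  set g : P × Fin r → ℝ := pnt B s c (fun j => κ j.1) with hg
  have hrel := pnt_rel h c (fun j => κ j.1)
  have hgκ : ∀ j ∉ B₁, g j = κ j.1 := by
    intro j hj
    by_cases hjB : j ∈ B
    · have hjS : j ∈ S := hsub (Finset.mem_sdiff.mpr ⟨hjB, hj⟩)
      simp only [S, Finset.mem_filter, Finset.mem_univ, true_and] at hjS
      have hj' : j = (j.1, big j.1) := Prod.ext rfl hjS.2
      have h1 : g j = c j - ∑ f ∈ Bᶜ, s j f * (κ f.1 - c f) := by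
        rw [hg]
        unfold pnt
        rw [sol_pivot hjB]
        ring
      have h2 : ∑ f ∈ Bᶜ, s j f * (κ f.1 - c f) = -∑ f ∈ Bᶜ, s j f * c f := by
        rw [← Finset.sum_neg_distrib]
        refine Finset.sum_congr rfl fun f hf => ?_
        have hfB := Finset.mem_compl.mp hf
        by_cases hfS : f ∈ S
        · simp only [S, Finset.mem_filter, Finset.mem_univ, true_and] at hfS
          have hf' : f = (f.1, big f.1) := Prod.ext rfl hfS.2
          have h3 : κ f.1 = 0 := by
            simp only [κ, if_neg hfS.1, cc]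
            rw [if_neg]
            rw [← hf']; exact hfB
          rw [h3]; ring
        · rw [hz j (Finset.mem_sdiff.mpr ⟨hjB, hj⟩) f hfS hfB]; ring
      rw [h1, h2]
      have h3 : κ j.1 = c j + ∑ f ∈ Bᶜ, s j f * c f := by
        simp only [κ, if_neg hjS.1, cc]
        rw [if_pos (by rw [← hj']; exact hjB), ← hj']
      rw [h3]; ring
    · rw [hg, pnt_free hjB]
  have h1 := H g hrel κ (by rw [hκ]; exact hη0)
  rw [hκ] at h1
  have h2 : ∀ i : P × Fin r, (if cls ty i ∈ B₁ then 0 else 1 : ℝ) ≤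
      rep (κ i.1 - g (cls ty i)) := by
    intro i
    split_ifs with hi
    · exact (rep_pos _).le
    · rw [hgκ _ hi]
      have : (cls ty i).1 = i.1 := rfl
      rw [this, sub_self, rep_zero]
  have h3 := Finset.sum_le_sum fun i (_ : i ∈ (Finset.univ : Finset (P × Fin r))) => h2 i
  have h4 : ∑ i : P × Fin r, (if cls ty i ∈ B₁ then 0 else 1 : ℝ) =
      (Fintype.card P : ℝ) * r - ∑ b ∈ B₁, (mlt ty b : ℝ) := by
    have h5 : ∀ i : P × Fin r, (if cls ty i ∈ B₁ then 0 else 1 : ℝ) =
        1 - ∑ b ∈ B₁, if cls ty i = b then 1 else 0 := by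
      intro i
      rw [Finset.sum_ite_eq]
      split_ifs <;> norm_num
    rw [Finset.sum_congr rfl fun i _ => h5 i, Finset.sum_sub_distrib, Finset.sum_comm]
    congr 1
    · simp
    · refine Finset.sum_congr rfl fun b _ => ?_
      rw [Fintype.sum_prod_type, Finset.sum_eq_single b.1]
      · unfold mlt
        rw [Finset.card_filter]
        push_cast
        refine Finset.sum_congr rfl fun l _ => ?_
        have : cls ty (b.1, l) = b ↔ ty b.1 l = b.2 := by
          unfold cls
          rw [Prod.ext_iff]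
          simp
        by_cases h6 : ty b.1 l = b.2
        · rw [if_pos (this.mpr h6), if_pos h6]
        · rw [if_neg (fun h7 => h6 (this.mp h7)), if_neg h6]
      · intro p _ hp
        refine Finset.sum_eq_zero fun l _ => ?_
        rw [if_neg]
        intro h6
        exact hp (Prod.ext_iff.mp h6).1
      · simp
  have hr : (0 : ℝ) ≤ r := Nat.cast_nonneg _
  have h5 : ((∑ b ∈ B₁, mlt ty b : ℕ) : ℝ) + 1 ≤ r := by exact_mod_cast hlt
  push_cast at h5
  have h6 : (r : ℝ) * η < 1 := by
    rw [hη, mul_one_div, div_lt_one (by positivity)]; linarith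
  linarith

end Pool.Agent.TH571.GP
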