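import Pool.Agent.TH571.GP.Final
import Pool.Agent.TH571.GP.Weighted

set_option autoImplicit false

/-!
Systems of a given spectral type.
-/

open Polynomial Pool.Agent.W432.PC Pool.Agent.W432.TC

namespace Pool.Agent.TH571.GP

/-- The coefficient sums of a relation over the classes of the exponents with the same labels: the
class `(p, a)` consists of the exponents at the point `p` (`none` is the point at infinity) with the
label `a`. -/
def classSum {n r : ℕ} (ty : Option (Fin n) → Fin r → Fin r) (v : ExponentIndex n r → ℤ) :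
    Option (Fin n) × Fin r → ℤ := fun j =>
  ∑ l, if ty j.1 l = j.2 then j.1.elim (v (Sum.inr l)) (fun i => v (Sum.inl (i, l))) else 0

/-- Class sums with the other sign at infinity. -/
def csum {P : Type*} {r : ℕ} (ty : P → Fin r → Fin r) : (P × Fin r → ℤ) →+ (P × Fin r → ℤ) where
  toFun m j := ∑ l, if ty j.1 l = j.2 then m (j.1, l) else 0
  map_zero' := by funext j; simp
  map_add' m m' := by
    funext j
    simp only [Pi.add_apply]
    rw [← Finset.sum_add_distrib]
    refine Finset.sum_congr rfl fun l _ => ?_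
    split_ifs <;> simp

lemma csum_apply {P : Type*} {r : ℕ} (ty : P → Fin r → Fin r) (m : P × Fin r → ℤ)
    (j : P × Fin r) : csum ty m j = ∑ l, if ty j.1 l = j.2 then m (j.1, l) else 0 := rfl

lemma sum_cls {P : Type*} [Fintype P] {r : ℕ} (ty : P → Fin r → Fin r) (m : P × Fin r → ℤ)
    (y : P × Fin r → ℝ) : ∑ i, (m i : ℝ) * y (cls ty i) = ∑ j, (csum ty m j : ℝ) * y j := by
  rw [Fintype.sum_prod_type, Fintype.sum_prod_type]
  refine Finset.sum_congr rfl fun p _ => ?_
  simp only [csum_apply]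
  push_cast
  simp only [Finset.sum_mul]
  rw [Finset.sum_comm]
  refine Finset.sum_congr rfl fun l _ => ?_
  simp only [ite_mul, zero_mul, Finset.sum_ite_eq, Finset.mem_univ, if_true]
  rfl

variable {n r : ℕ}

lemma exists_relations {L : AddSubgroup (ExponentIndex n r → ℤ)} {c : ExponentIndex n r → ℚ}
    (H : ∀ z, InCoset L c z → WeylBoth z) {x : ExponentIndex n r → ℝ} (hx : InCoset L c x)
    (ty : Option (Fin n) → Fin r → Fin r)
    (h1 : ∀ j l l', ty (some j) l = ty (some j) l' → ∃ z : ℤ, x (Sum.inl (j, l)) - x (Sum.inl (j, l')) = z)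
    (h2 : ∀ l l', ty none l = ty none l' → ∃ z : ℤ, x (Sum.inr l) - x (Sum.inr l') = z)
    (p₀ : Option (Fin n)) (big : Option (Fin n) → Fin r) (m : ℕ)
    (hm : ∀ p l, p = p₀ ∨ ty p l ≠ big p →
      (Finset.univ.filter fun l' => ty p l' = ty p l).card ≤ m) :
    ∃ (k : ℕ) (f : Fin k → ExponentIndex n r → ℤ), r ≤ k * m ∧
      LinearIndependent ℤ (fun j => classSum ty (f j)) ∧ ∀ j, f j ∈ L := by
  classical
  set u : Option (Fin n) × Fin r → ℝ := toU x with hu
  have hty : ∀ p l l', ty p l = ty p l' → ∃ z : ℤ, u (p, l) - u (p, l') = z := by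
    intro p l l' h
    rcases p with _ | j
    · obtain ⟨z, hz⟩ := h2 l l' h
      refine ⟨-z, ?_⟩
      simp only [hu, toU, Option.elim_none]
      push_cast
      rw [← hz]; ring
    · obtain ⟨z, hz⟩ := h1 j l l' h
      exact ⟨z, by simp only [hu, toU, Option.elim_some]; exact hz⟩
  let g₀ : Option (Fin n) × Fin r → ℝ := fun j =>
    if h : ∃ l, ty j.1 l = j.2 then u (j.1, h.choose) else 0
  have hg₀ : ∀ i, ∃ z : ℤ, u i - g₀ (cls ty i) = z := by
    rintro ⟨p, l⟩
    have hex : ∃ l', ty (cls ty (p, l)).1 l' = (cls ty (p, l)).2 := ⟨l, rfl⟩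
    have h3 : g₀ (cls ty (p, l)) = u (p, hex.choose) := by
      simp only [g₀]
      rw [dif_pos hex]
      rfl
    rw [h3]
    exact hty p l hex.choose hex.choose_spec.symm
  choose k hk using hg₀
  let L' : AddSubgroup (Option (Fin n) × Fin r → ℤ) := L.comap (backHom n r)
  have hexc : ExcT ty (L'.map (csum ty)) g₀ := by
    intro g hg
    refine SW_sub_int k (weyl_SW ((H _ ?_).1))
    intro m' hm'
    let m'' : Option (Fin n) × Fin r → ℤ := fun i =>
      i.1.elim (-m' (Sum.inr i.2)) fun j => m' (Sum.inl (j, i.2))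
    have hm'' : backHom n r m'' = m' := by
      funext i
      rcases i with ⟨j, l⟩ | l
      · rfl
      · rw [backHom_inr]; simp [m'']
    have hmem : m'' ∈ L' := by
      show backHom n r m'' ∈ L
      rw [hm'']; exact hm'
    obtain ⟨z, hz⟩ := hx m' hm'
    refine ⟨z, ?_⟩
    have h3 := sum_back m'' (fun i => toZ (fun i => (k i : ℝ) + g (cls ty i)) i - x i)
    rw [hm''] at h3
    have h4 : ∑ i, (m'' i : ℝ) * toU (fun i => toZ (fun i => (k i : ℝ) + g (cls ty i)) i - x i) i =
        ∑ i, (m'' i : ℝ) * ((fun j => g j - g₀ j) (cls ty i)) := by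
      refine Finset.sum_congr rfl fun i _ => ?_
      congr 1
      have h5 := hk i
      rcases i with ⟨_ | j, l⟩
      · simp only [toU, toZ, Option.elim_none, Sum.elim_inr]
        simp only [hu, toU, Option.elim_none] at h5
        linarith
      · simp only [toU, toZ, Option.elim_some, Sum.elim_inl]
        simp only [hu, toU, Option.elim_some] at h5
        linarith
    have h5 : ∑ i, (m'' i : ℝ) * ((fun j => g j - g₀ j) (cls ty i)) = 0 := by
      rw [sum_cls ty m'' (fun j => g j - g₀ j)]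
      exact hg _ (AddSubgroup.mem_map_of_mem _ hmem)
    rw [h4, h5] at h3
    rw [← hz]
    have h6 : ∑ i, (m' i : ℝ) * (toZ (fun i => (k i : ℝ) + g (cls ty i)) i - c i) =
        ∑ i, (m' i : ℝ) * (toZ (fun i => (k i : ℝ) + g (cls ty i)) i - x i) +
          ∑ i, (m' i : ℝ) * (x i - c i) := by
      rw [← Finset.sum_add_distrib]
      exact Finset.sum_congr rfl fun i _ => by ring
    rw [h6, h3, zero_add]
  obtain ⟨B₁, hTS, hB₁, hw⟩ := weighted ty hexc p₀ big
  obtain ⟨F, hFind, hFL⟩ := hTS.indep le_rfl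
  choose f hf hfF using fun j => AddSubgroup.mem_map.mp (hFL j)
  refine ⟨B₁.card, fun j => backHom n r (f j), ?_, ?_, fun j => hf j⟩
  · refine hw.trans ?_
    rw [← smul_eq_mul, ← Finset.sum_const]
    refine Finset.sum_le_sum fun b hb => ?_
    unfold mlt
    by_cases hex : ∃ l, ty b.1 l = b.2
    · obtain ⟨l, hl⟩ := hex
      rw [← hl]
      refine hm b.1 l ?_
      rw [hl]
      exact hB₁ b hb
    · push Not at hex
      rw [Finset.card_eq_zero.mpr (Finset.filter_eq_empty_iff.mpr fun l _ => hex l)]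
      exact Nat.zero_le _
  · rw [Fintype.linearIndependent_iff] at hFind ⊢
    intro g hg
    refine hFind g ?_
    funext j
    have h3 := congrFun hg j
    simp only [Finset.sum_apply, Pi.smul_apply, smul_eq_mul, Pi.zero_apply] at h3 ⊢
    rcases j with ⟨_ | i, a⟩
    · have h4 : ∀ t, classSum ty (backHom n r (f t)) (none, a) = -F t (none, a) := by
        intro t
        rw [← hfF t, csum_apply]
        unfold classSum
        rw [← Finset.sum_neg_distrib]
        refine Finset.sum_congr rfl fun l _ => ?_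
        simp only [Option.elim_none, backHom_inr]
        split_ifs <;> simp
      simp only [h4, mul_neg, Finset.sum_neg_distrib, neg_eq_zero] at h3
      exact h3
    · have h4 : ∀ t, classSum ty (backHom n r (f t)) (some i, a) = F t (some i, a) := by
        intro t
        rw [← hfF t, csum_apply]
        rfl
      simp only [h4] at h3
      exact h3

universe u

/-- Systems of a given spectral type. -/
theorem spectral (n r : ℕ) (ty : Option (Fin n) → Fin r → Fin r) (p₀ : Option (Fin n))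
    (big : Option (Fin n) → Fin r) (m : ℕ)
    (hm : ∀ p l, p = p₀ ∨ ty p l ≠ big p →
      (Finset.univ.filter fun l' => ty p l' = ty p l).card ≤ m) :
    ∃ 𝒟 : Finset (AddSubgroup (ExponentIndex n r → ℤ) × (ExponentIndex n r → ℚ)),
      (∀ C ∈ 𝒟, ∃ (k : ℕ) (f : Fin k → ExponentIndex n r → ℤ), r ≤ k * m ∧
        LinearIndependent ℤ (fun j => classSum ty (f j)) ∧ ∀ j, f j ∈ C.1) ∧
      ∀ (R : Type u) [CommRing R] [IsDomain R] [CharZero R] [Algebra.FiniteType ℤ R]
        (α : Fin n → R) (A : Fin n → Matrix (Fin r) (Fin r) R)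
        (lam : Fin n → Fin r → ℚ) (phi : Fin r → ℚ) (N : ℕ),
        (∀ i j, i ≠ j → IsUnit (α i - α j)) →
        (∀ j, HasExponents (A j) (lam j)) → HasExponents (∑ j, A j) phi →
        (∀ j l l', ty (some j) l = ty (some j) l' → ∃ z : ℤ, lam j l - lam j l' = z) →
        (∀ l l', ty none l = ty none l' → ∃ z : ℤ, phi l - phi l' = z) →
        0 < N → (∀ j l, ∃ m : ℤ, (N : ℚ) * lam j l = m) → (∀ l, ∃ m : ℤ, (N : ℚ) * phi l = m) →
        (∃ C ∈ 𝒟, InCoset C.1 C.2 (fun i => ((Sum.elim (fun p => lam p.1 p.2) phi i : ℚ) : ℝ))) ∨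
          ((∃ a : ℤ, IsCoprime a (N : ℤ) ∧ ∃ P₀ : ℕ, ∀ p : ℕ, p.Prime → P₀ < p →
            (N : ℤ) ∣ a * p + 1 → ∀ (𝔪 : Ideal R) [𝔪.IsMaximal], (p : R) ∈ 𝔪 →
              ¬ PCurvZeroAt α A 𝔪) ∧ ¬ CondII α A) := by
  classical
  obtain ⟨𝒟₁, h𝒟₁, hcov⟩ := cosets n r
  let good : AddSubgroup (ExponentIndex n r → ℤ) × (ExponentIndex n r → ℚ) → Prop := fun C =>
    ∃ (k : ℕ) (f : Fin k → ExponentIndex n r → ℤ), r ≤ k * m ∧
        LinearIndependent ℤ (fun j => classSum ty (f j)) ∧ ∀ j, f j ∈ C.1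
  refine ⟨𝒟₁.filter good, fun C hC => (Finset.mem_filter.mp hC).2, ?_⟩
  intro R _ _ _ _ α A lam phi N hα hlam hphi hty hty' hN hNlam hNphi
  have := charZero_fraction (R := R)
  refine or_iff_not_imp_left.mpr fun hnot => ?_
  set x : ExponentIndex n r → ℚ := Sum.elim (fun p => lam p.1 p.2) phi with hx
  have hNx : ∀ i, ∃ z : ℤ, (N : ℚ) * x i = z := by
    rintro (⟨j, l⟩ | l)
    · exact hNlam j l
    · exact hNphi l
  have htr : ∑ i, (traceRelation n r i : ℚ) * x i = 0 := by
    rw [tr_sum]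
    simp only [hx, Sum.elim_inl, Sum.elim_inr]
    have h1 := HasExponents.trace hphi
    have h2 := fun j => HasExponents.trace (hlam j)
    have h3 : (∑ j, A j).trace = ∑ j, (A j).trace := by
      rw [Matrix.trace_sum]
    rw [h3, map_sum, Finset.sum_congr rfl fun j _ => h2 j] at h1
    have h4 : ((∑ j, ∑ l, lam j l : ℚ) : FractionRing R) =
        ((∑ l, phi l : ℚ) : FractionRing R) := by
      push_cast
      push_cast at h1
      exact h1
    have h5 : ∑ j, ∑ l, lam j l = ∑ l, phi l := by exact_mod_cast h4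
    rw [h5, sub_self]
  have key : ∃ a : ℤ, IsCoprime a (N : ℤ) ∧ ¬ WeylBoth (fun i => (a : ℝ) * x i) := by
    by_contra hno
    push Not at hno
    obtain ⟨C, hC, hxC⟩ := hcov x ⟨0, by rw [htr]; simp⟩ ⟨N, hN, hNx, hno⟩
    refine hnot ⟨C, Finset.mem_filter.mpr ⟨hC, ?_⟩, hxC⟩
    refine exists_relations (h𝒟₁ C hC).2.2 hxC ty ?_ ?_ p₀ big m hm
    · intro j l l' h
      obtain ⟨z, hz⟩ := hty j l l' h
      refine ⟨z, ?_⟩
      simp only [hx, Sum.elim_inl]
      exact_mod_cast hz
    · intro l l' h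
      obtain ⟨z, hz⟩ := hty' l l' h
      refine ⟨z, ?_⟩
      simp only [hx, Sum.elim_inr]
      exact_mod_cast hz
  obtain ⟨a, ha, hbad⟩ := key
  obtain ⟨P₀, hP₀⟩ := exists_bad α hα A lam phi hlam hphi N hN hNlam hNphi a hbad
  refine ⟨⟨a, ha, P₀, hP₀⟩, not_condII_of α A N hN a ha ⟨1, one_ne_zero, P₀, ?_⟩⟩
  intro p hp hpP hap 𝔪 _ hpm _
  exact hP₀ p hp hpP hap 𝔪 hpm

end Pool.Agent.TH571.GP
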