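import Pool.Agent.TH571.GP.Ech

set_option autoImplicit false

/-!
Cosets all of whose real points satisfy the Weyl inequalities: they have at least `r` independent
relations, and exactly `r` only if they are the cosets of the exponents of direct sums of systems of
rank one.
-/

open Filter Topology

namespace Pool.Agent.TH571.GP

variable {P : Type*} [Fintype P] [DecidableEq P] {r : ℕ}

/-- All points of the coset satisfy the Weyl inequalities. -/
def Exc (L : AddSubgroup (P × Fin r → ℤ)) (c : P × Fin r → ℝ) : Prop :=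
  ∀ x : P × Fin r → ℝ, (∀ m ∈ L, ∑ i, (m i : ℝ) * (x i - c i) = 0) → SW x

/-- The point of the coset with given free coordinates. -/
noncomputable def pnt (B : Finset (P × Fin r)) (s : P × Fin r → P × Fin r → ℝ)
    (c t : P × Fin r → ℝ) : P × Fin r → ℝ := fun i => c i + sol B s (fun j => t j - c j) i

lemma pnt_free {B : Finset (P × Fin r)} {s : P × Fin r → P × Fin r → ℝ}
    {c t : P × Fin r → ℝ} {i : P × Fin r} (h : i ∉ B) : pnt B s c t i = t i := by
  simp [pnt, sol_free h]

lemma pnt_rel {L : AddSubgroup (P × Fin r → ℤ)} {B : Finset (P × Fin r)}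
    {s : P × Fin r → P × Fin r → ℝ} (h : Ech L B s) (c t : P × Fin r → ℝ) :
    ∀ m ∈ L, ∑ i, (m i : ℝ) * (pnt B s c t i - c i) = 0 := by
  intro m hm
  have := h.sol_rel (fun j => t j - c j) m hm
  simpa [pnt] using this

lemma card_ge [Nonempty P] {L : AddSubgroup (P × Fin r → ℤ)} {c : P × Fin r → ℝ} (H : Exc L c)
    {B : Finset (P × Fin r)} {s : P × Fin r → P × Fin r → ℝ} (h : Ech L B s) : r ≤ B.card := by
  by_contra hlt
  push Not at hlt
  obtain ⟨p₀⟩ := (inferInstance : Nonempty P)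
  have hr : (0 : ℝ) ≤ r := Nat.cast_nonneg _
  set η : ℝ := 1 / (r + 1) with hη
  have hη0 : 0 < η := by positivity
  let κ : P → ℝ := Pi.single p₀ η
  have hκ : ∑ p, κ p = η := by simp [κ]
  have h1 := H _ (pnt_rel h c (fun i => κ i.1)) κ (by rw [hκ]; exact hη0)
  rw [hκ, ← Finset.sum_add_sum_compl B] at h1
  have h2 : ∑ i ∈ Bᶜ, rep (κ i.1 - pnt B s c (fun i => κ i.1) i) = (Bᶜ.card : ℝ) := by
    rw [Finset.card_eq_sum_ones]
    push_cast
    refine Finset.sum_congr rfl fun i hi => ?_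
    rw [pnt_free (Finset.mem_compl.mp hi), sub_self, rep_zero]
  have h3 : 0 ≤ ∑ i ∈ B, rep (κ i.1 - pnt B s c (fun i => κ i.1) i) :=
    Finset.sum_nonneg fun i _ => (rep_pos _).le
  have h4 : (Bᶜ.card : ℝ) + B.card = (Fintype.card P : ℝ) * r := by
    have : Bᶜ.card + B.card = Fintype.card P * r := by
      rw [add_comm, Finset.card_add_card_compl, Fintype.card_prod, Fintype.card_fin]
    exact_mod_cast this
  have h5 : (B.card : ℝ) + 1 ≤ r := by exact_mod_cast hlt
  have h6 : (r : ℝ) * η < 1 := by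
    rw [hη, mul_one_div, div_lt_one (by positivity)]; linarith
  rw [h2] at h1
  linarith

lemma key [Nonempty P] {L : AddSubgroup (P × Fin r → ℤ)} {c : P × Fin r → ℝ} (H : Exc L c)
    {B : Finset (P × Fin r)} {s : P × Fin r → P × Fin r → ℝ} (h : Ech L B s) (hB : B.card = r)
    {x : P × Fin r → ℝ} (hx : ∀ m ∈ L, ∑ i, (m i : ℝ) * (x i - c i) = 0) {κ : P → ℝ}
    (hκ : ∑ p, κ p = 0) (hd0 : ∀ f ∉ B, 0 ≤ x f - κ f.1) (hd1 : ∀ f ∉ B, x f - κ f.1 < 1) :
    ∑ b ∈ B, Int.fract (κ b.1 - x b) ≤ ∑ f ∈ Bᶜ, (x f - κ f.1) := by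
  classical
  set e : P × Fin r → ℝ := sol B s (fun _ => 1) with he
  have herel := h.sol_rel (fun _ => 1)
  rw [← he] at herel
  have hef : ∀ f ∉ B, e f = 1 := fun f hf => by rw [he, sol_free hf]
  set Cn : ℝ := ∑ b ∈ B, |1 - e b| + r * Fintype.card P with hCn
  have hP : (0 : ℝ) < Fintype.card P := by exact_mod_cast Fintype.card_pos
  have hev : ∀ᶠ η in 𝓝[>] (0 : ℝ), ∑ b ∈ B, Int.fract (κ b.1 - x b) ≤
      ∑ f ∈ Bᶜ, (x f - κ f.1) + Cn * η := by
    have h1 : ∀ᶠ η in 𝓝[>] (0 : ℝ), ∀ b ∈ B, Int.fract (κ b.1 - x b) ≤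
        rep (κ b.1 - x b + (1 - e b) * η) + |1 - e b| * η := by
      rw [Filter.eventually_all_finset]
      exact fun b _ => frac_le _ _
    filter_upwards [h1, self_mem_nhdsWithin] with η h1 hη
    have hη0 : (0 : ℝ) < η := hη
    have h2 := H (fun i => x i + η * e i) (by
      intro m hm
      have h3 : ∑ i, (m i : ℝ) * (x i + η * e i - c i) =
          ∑ i, (m i : ℝ) * (x i - c i) + η * ∑ i, (m i : ℝ) * e i := by
        rw [Finset.mul_sum, ← Finset.sum_add_distrib]
        exact Finset.sum_congr rfl fun i _ => by ring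
      rw [h3, hx m hm, herel m hm]; ring) (fun p => κ p + η) (by
      rw [Finset.sum_add_distrib, hκ, Finset.sum_const, Finset.card_univ, nsmul_eq_mul]
      positivity)
    rw [Finset.sum_add_distrib, hκ, Finset.sum_const, Finset.card_univ, nsmul_eq_mul, zero_add,
      ← Finset.sum_add_sum_compl B] at h2
    have h4 : ∑ f ∈ Bᶜ, rep (κ f.1 + η - (x f + η * e f)) =
        (Bᶜ.card : ℝ) - ∑ f ∈ Bᶜ, (x f - κ f.1) := by
      rw [Finset.card_eq_sum_ones]
      push_cast
      rw [← Finset.sum_sub_distrib]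
      refine Finset.sum_congr rfl fun f hf => ?_
      have hf' := Finset.mem_compl.mp hf
      rw [hef f hf', show κ f.1 + η - (x f + η * 1) = -(x f - κ f.1) by ring,
        rep_neg (hd0 f hf') (hd1 f hf')]
    have h5 : (Bᶜ.card : ℝ) = ((Fintype.card P : ℝ) - 1) * r := by
      have : Bᶜ.card + B.card = Fintype.card P * r := by
        rw [add_comm, Finset.card_add_card_compl, Fintype.card_prod, Fintype.card_fin]
      have h6 : (Bᶜ.card : ℝ) + B.card = Fintype.card P * r := by exact_mod_cast this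
      rw [hB] at h6
      linarith
    have h6 : ∑ b ∈ B, rep (κ b.1 - x b + (1 - e b) * η) =
        ∑ b ∈ B, rep (κ b.1 + η - (x b + η * e b)) := by
      refine Finset.sum_congr rfl fun b _ => ?_
      congr 1; ring
    have h7 := Finset.sum_le_sum h1
    rw [Finset.sum_add_distrib, ← Finset.sum_mul, h6] at h7
    rw [h4, h5] at h2
    rw [hCn]
    have h8 : (∑ b ∈ B, |1 - e b| + r * Fintype.card P) * η =
        (∑ b ∈ B, |1 - e b|) * η + r * (Fintype.card P * η) := by ring
    rw [h8]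
    linarith
  have hlim : Tendsto (fun η : ℝ => ∑ f ∈ Bᶜ, (x f - κ f.1) + Cn * η) (𝓝[>] 0)
      (𝓝 (∑ f ∈ Bᶜ, (x f - κ f.1) + Cn * 0)) := by
    apply Tendsto.mono_left _ nhdsWithin_le_nhds
    exact (continuous_const.add (continuous_const.mul continuous_id)).tendsto 0
  rw [mul_zero, add_zero] at hlim
  exact ge_of_tendsto hlim hev

/-- The constants are integral. -/
lemma exists_int [Nonempty P] {L : AddSubgroup (P × Fin r → ℤ)} {c : P × Fin r → ℝ}
    (H : Exc L c) {B : Finset (P × Fin r)} {s : P × Fin r → P × Fin r → ℝ} (h : Ech L B s)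
    (hB : B.card = r) : ∃ k : P × Fin r → ℤ, ∀ m ∈ L, ∑ i, (m i : ℝ) * (k i - c i) = 0 := by
  have hrel := pnt_rel h c (fun _ => 0)
  have hfree : ∀ f ∉ B, pnt B s c (fun _ => 0) f = 0 := fun f hf => pnt_free hf
  have h1 := key H h hB hrel (κ := fun _ => 0) (by simp)
    (fun f hf => by rw [hfree f hf]; simp) (fun f hf => by rw [hfree f hf]; simp)
  have h2 : ∑ f ∈ Bᶜ, (pnt B s c (fun _ => 0) f - 0) = 0 :=
    Finset.sum_eq_zero fun f hf => by rw [hfree f (Finset.mem_compl.mp hf), sub_zero]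
  rw [h2] at h1
  have h3 : ∀ b ∈ B, Int.fract (0 - pnt B s c (fun _ => 0) b) = 0 := by
    have h4 := (Finset.sum_eq_zero_iff_of_nonneg (fun b _ => Int.fract_nonneg _)).mp
      (le_antisymm h1 (Finset.sum_nonneg fun b _ => Int.fract_nonneg _))
    exact h4
  have h5 : ∀ i, ∃ k : ℤ, pnt B s c (fun _ => 0) i = k := by
    intro i
    by_cases hi : i ∈ B
    · have h6 := h3 i hi
      rw [Int.fract_eq_iff] at h6
      obtain ⟨-, -, z, hz⟩ := h6
      exact ⟨-z, by push_cast; linarith⟩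
    · exact ⟨0, by rw [hfree i hi]; simp⟩
  choose k hk using h5
  refine ⟨k, fun m hm => ?_⟩
  have := hrel m hm
  simpa [hk] using this

omit [DecidableEq P] in
lemma exc_zero {L : AddSubgroup (P × Fin r → ℤ)} {c : P × Fin r → ℝ}
    (H : Exc L c) {k : P × Fin r → ℤ} (hk : ∀ m ∈ L, ∑ i, (m i : ℝ) * (k i - c i) = 0) :
    Exc L (fun _ => 0) := by
  intro x hx
  refine SW_sub_int k (H _ fun m hm => ?_)
  have h1 : ∑ i, (m i : ℝ) * (k i + x i - c i) =
      ∑ i, (m i : ℝ) * (k i - c i) + ∑ i, (m i : ℝ) * (x i - 0) := by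
    rw [← Finset.sum_add_distrib]
    exact Finset.sum_congr rfl fun i _ => by ring
  rw [h1, hk m hm, hx m hm, add_zero]

lemma coef_nonneg [Nonempty P] {L : AddSubgroup (P × Fin r → ℤ)} (H : Exc L (fun _ => 0))
    {B : Finset (P × Fin r)} {s : P × Fin r → P × Fin r → ℝ} (h : Ech L B s)
    (hB : B.card = r) {b : P × Fin r} (hb : b ∈ B) (f : P × Fin r) : 0 ≤ s b f := by
  by_cases hf : f ∈ B
  · by_cases hbf : f = b
    · rw [hbf, h.one b hb]; norm_num
    · rw [h.zero b hb f hf hbf]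
  by_contra hneg
  push Not at hneg
  set a : ℝ := s b f with ha
  set ε : ℝ := 1 / (4 * (1 - a)) with hε
  have h1a : 1 < 1 - a := by linarith
  have hε0 : 0 < ε := by positivity
  have hε1 : ε < 1 / 4 := by
    rw [hε, div_lt_div_iff₀ (by linarith) (by norm_num)]; linarith
  have hε2 : -(1 / 4) < a * ε := by
    have h2 : (1 - a) * ε = 1 / 4 := by rw [hε]; field_simp
    nlinarith
  set t : P × Fin r → ℝ := fun i => if i = f then ε else 0 with ht
  have hrel := pnt_rel h (fun _ => 0) t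
  have hfree : ∀ i ∉ B, pnt B s (fun _ => 0) t i = t i := fun i hi => pnt_free hi
  have ht0 : ∀ i, 0 ≤ t i := by intro i; simp only [ht]; split_ifs <;> linarith
  have ht1 : ∀ i, t i < 1 := by intro i; simp only [ht]; split_ifs <;> linarith
  have h1 := key H h hB hrel (κ := fun _ => 0) (by simp)
    (fun i hi => by rw [hfree i hi, sub_zero]; exact ht0 i)
    (fun i hi => by rw [hfree i hi, sub_zero]; exact ht1 i)
  have h2 : ∑ i ∈ Bᶜ, (pnt B s (fun _ => 0) t i - 0) = ε := by
    have : ∑ i ∈ Bᶜ, (pnt B s (fun _ => 0) t i - 0) = ∑ i ∈ Bᶜ, t i := by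
      refine Finset.sum_congr rfl fun i hi => ?_
      rw [hfree i (Finset.mem_compl.mp hi), sub_zero]
    rw [this, Finset.sum_eq_single f]
    · simp [ht]
    · intro i _ hi; simp [ht, hi]
    · intro h'; exact absurd (Finset.mem_compl.mpr hf) h'
  rw [h2] at h1
  have h3 : Int.fract (0 - pnt B s (fun _ => 0) t b) ≤ ε :=
    (Finset.single_le_sum (f := fun b => Int.fract (0 - pnt B s (fun _ => 0) t b))
      (fun i _ => Int.fract_nonneg _) hb).trans h1
  have h4 : pnt B s (fun _ => 0) t b = -(a * ε) := by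
    unfold pnt
    rw [sol_pivot hb, Finset.sum_eq_single f]
    · simp [ht, ha]
    · intro i _ hi; simp [ht, hi]
    · intro h'; exact absurd (Finset.mem_compl.mpr hf) h'
  rw [h4] at h3
  have haε : a * ε < 0 := mul_neg_of_neg_of_pos hneg hε0
  have h5 : Int.fract (0 - -(a * ε)) = a * ε + 1 := by
    rw [Int.fract_eq_iff]
    refine ⟨by linarith, by linarith, -1, by push_cast; ring⟩
  rw [h5] at h3
  linarith

omit [Fintype P] [DecidableEq P] in
lemma sum_coef {L : AddSubgroup (P × Fin r → ℤ)} (hone : (fun _ => 1) ∈ L)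
    {B : Finset (P × Fin r)} {s : P × Fin r → P × Fin r → ℝ} (h : Ech L B s) (i : P × Fin r) :
    ∑ b ∈ B, s b i = 1 := by
  have := h.exp _ hone i
  simpa using this.symm

/-- Every coordinate is equal, on `L`, to a coordinate in `B`. -/
lemma exists_col [Nonempty P] {L : AddSubgroup (P × Fin r → ℤ)} (H : Exc L (fun _ => 0))
    (hone : (fun _ => 1) ∈ L) (hcard : ∀ B : Finset (P × Fin r), TS L B → B.card ≤ r)
    {B : Finset (P × Fin r)} {s : P × Fin r → P × Fin r → ℝ} (h : Ech L B s)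
    (hB : B.card = r) (f : P × Fin r) : ∃ b ∈ B, ∀ m ∈ L, m f = m b := by
  have hTf : TS L {f} := by
    intro b hb
    refine ⟨_, hone, one_ne_zero, fun b' hb' hne => ?_⟩
    rw [Finset.mem_singleton] at hb hb'
    exact absurd (hb'.trans hb.symm) hne
  obtain ⟨B', hfB', hTS', s', h'⟩ := exists_ech L hTf
  have hf' : f ∈ B' := hfB' (Finset.mem_singleton_self f)
  have hB' : B'.card = r := le_antisymm (hcard B' hTS') (card_ge H h')
  -- expansion of the row of `f`
  obtain ⟨m', hm', hm0, hmul⟩ := h'.mult f hf'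
  have hm0' : (m' f : ℝ) ≠ 0 := by exact_mod_cast hm0
  have h1 : ∑ b ∈ B, s' f b * s b f = 1 := by
    have h2 := h.exp m' hm' f
    have h3 : (m' f : ℝ) * ∑ b ∈ B, s' f b * s b f = m' f * 1 := by
      rw [mul_one, Finset.mul_sum]
      refine Eq.trans ?_ h2.symm
      refine Finset.sum_congr rfl fun b _ => ?_
      rw [hmul b]; ring
    exact mul_left_cancel₀ hm0' h3
  have h2 := sum_coef hone h f
  have hle : ∀ b, s' f b ≤ 1 := by
    intro b
    rw [← sum_coef hone h' b]
    exact Finset.single_le_sum (f := fun b' => s' b' b) (fun b' hb' => coef_nonneg H h' hB' hb' b) hf'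
  have h3 : ∑ b ∈ B, (1 - s' f b) * s b f = 0 := by
    have : ∑ b ∈ B, (1 - s' f b) * s b f = ∑ b ∈ B, s b f - ∑ b ∈ B, s' f b * s b f := by
      rw [← Finset.sum_sub_distrib]
      exact Finset.sum_congr rfl fun b _ => by ring
    rw [this, h1, h2, sub_self]
  have h4 := (Finset.sum_eq_zero_iff_of_nonneg (fun b hb =>
    mul_nonneg (sub_nonneg.mpr (hle b)) (coef_nonneg H h hB hb f))).mp h3
  obtain ⟨b, hb, hbf⟩ : ∃ b ∈ B, s b f ≠ 0 := by
    by_contra hno
    push Not at hno
    rw [Finset.sum_eq_zero hno] at h2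
    exact zero_ne_one h2
  have h5 : s' f b = 1 := by
    rcases mul_eq_zero.mp (h4 b hb) with h6 | h6
    · linarith
    · exact absurd h6 hbf
  refine ⟨b, hb, fun m hm => ?_⟩
  have h6 : ∀ b' ∈ B', b' ≠ f → s' b' b = 0 := by
    intro b' hb' hne
    have h7 := sum_coef hone h' b
    rw [← Finset.add_sum_erase _ _ hf', h5] at h7
    have h8 : ∑ b' ∈ B'.erase f, s' b' b = 0 := by linarith
    exact (Finset.sum_eq_zero_iff_of_nonneg (fun b' hb' =>
      coef_nonneg H h' hB' (Finset.mem_of_mem_erase hb') b)).mp h8 b' (Finset.mem_erase.mpr ⟨hne, hb'⟩)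
  have h7 := h'.exp m hm b
  rw [Finset.sum_eq_single f (fun b' hb' hne => by rw [h6 b' hb' hne, mul_zero])
    (fun h'' => absurd hf' h''), h5, mul_one] at h7
  exact_mod_cast h7.symm

/-- The relation of a direct summand. -/
def rho (σ : P → Equiv.Perm (Fin r)) (l : Fin r) : P × Fin r → ℤ := fun i =>
  if i.2 = σ i.1 l then 1 else 0

/-- The structure theorem. -/
theorem structure_thm [Nonempty P] (L : AddSubgroup (P × Fin r → ℤ)) (c : P × Fin r → ℝ)
    (hsat : ∀ (d : ℤ) (m : P × Fin r → ℤ), d ≠ 0 → d • m ∈ L → m ∈ L)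
    (hone : (fun _ => 1) ∈ L) (H : Exc L c)
    (hrank : ¬ ∃ m : Fin (r + 1) → P × Fin r → ℤ, LinearIndependent ℤ m ∧ ∀ k, m k ∈ L) :
    (∃ σ : P → Equiv.Perm (Fin r), ∀ l, rho σ l ∈ L) ∧
      ∃ k : P × Fin r → ℤ, ∀ m ∈ L, ∑ i, (m i : ℝ) * (k i - c i) = 0 := by
  classical
  have hcard : ∀ B : Finset (P × Fin r), TS L B → B.card ≤ r := by
    intro B hB
    by_contra hlt
    push Not at hlt
    exact hrank (hB.indep hlt)
  obtain ⟨B, -, hTS, s, h⟩ := exists_ech L (B₀ := ∅) (by intro b hb; simp at hb)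
  have hB : B.card = r := le_antisymm (hcard B hTS) (card_ge H h)
  obtain ⟨k, hk⟩ := exists_int H h hB
  refine ⟨?_, k, hk⟩
  have H0 := exc_zero H hk
  choose β hβB hβ using exists_col H0 hone hcard h hB
  -- the rows
  have hβb : ∀ b ∈ B, β b = b := by
    intro b hb
    obtain ⟨m, hm, h0, hmul⟩ := h.mult b hb
    by_contra hne
    have h1 : (m (β b) : ℝ) = m b * s b (β b) := hmul (β b)
    rw [h.zero b hb _ (hβB b) hne, mul_zero, ← hβ b m hm] at h1
    exact h0 (by exact_mod_cast h1)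
  have hrow : ∀ b ∈ B, ∀ i, s b i = if β i = b then 1 else 0 := by
    intro b hb i
    obtain ⟨m, hm, h0, hmul⟩ := h.mult b hb
    have h0' : (m b : ℝ) ≠ 0 := by exact_mod_cast h0
    have h1 : s b i = s b (β i) := by
      apply mul_left_cancel₀ h0'
      rw [← hmul, ← hmul, hβ i m hm]
    rw [h1]
    split_ifs with hib
    · rw [hib, h.one b hb]
    · exact h.zero b hb _ (hβB i) hib
  -- the numbers of coordinates
  let N : P → P × Fin r → ℤ := fun p b => ∑ l, if β (p, l) = b then 1 else 0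
  have hsum : ∀ (b) (κ : P → ℝ), b ∈ B → ∑ i : P × Fin r, s b i * κ i.1 = ∑ p, κ p * N p b := by
    intro b κ hb
    rw [Fintype.sum_prod_type]
    refine Finset.sum_congr rfl fun p _ => ?_
    simp only [N]
    push_cast
    rw [Finset.mul_sum]
    refine Finset.sum_congr rfl fun l _ => ?_
    rw [hrow b hb]
    ring
  have hint : ∀ (κ : P → ℝ), ∑ p, κ p = 0 → ∀ b ∈ B, ∃ z : ℤ, ∑ p, κ p * N p b = z := by
    intro κ hκ b hb
    have hrel := pnt_rel h (fun _ => 0) (fun i => κ i.1)
    have hfree : ∀ f ∉ B, pnt B s (fun _ => 0) (fun i => κ i.1) f = κ f.1 := fun f hf => pnt_free hf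
    have h1 := key H0 h hB hrel (κ := κ) hκ
      (fun f hf => by rw [hfree f hf, sub_self]) (fun f hf => by rw [hfree f hf, sub_self]; norm_num)
    have h2 : ∑ f ∈ Bᶜ, (pnt B s (fun _ => 0) (fun i => κ i.1) f - κ f.1) = 0 :=
      Finset.sum_eq_zero fun f hf => by rw [hfree f (Finset.mem_compl.mp hf), sub_self]
    rw [h2] at h1
    have h4 := (Finset.sum_eq_zero_iff_of_nonneg (fun b _ => Int.fract_nonneg _)).mp
      (le_antisymm h1 (Finset.sum_nonneg fun b _ => Int.fract_nonneg _)) b hb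
    rw [Int.fract_eq_iff] at h4
    obtain ⟨-, -, z, hz⟩ := h4
    refine ⟨z, ?_⟩
    rw [← hsum b κ hb, ← hz]
    have h5 : pnt B s (fun _ => 0) (fun i => κ i.1) b = -∑ f ∈ Bᶜ, s b f * κ f.1 := by
      unfold pnt
      rw [sol_pivot hb]; simp
    have h6 : ∑ i ∈ B, s b i * κ i.1 = κ b.1 := by
      rw [Finset.sum_eq_single b]
      · rw [h.one b hb, one_mul]
      · intro b' hb' hne
        rw [h.zero b hb b' hb' hne, zero_mul]
      · intro h'; exact absurd hb h'
    rw [h5, ← Finset.sum_add_sum_compl B, h6]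
    ring
  have hNeq : ∀ b ∈ B, ∀ p p', N p b = N p' b := by
    intro b hb p p'
    by_contra hne
    have hpp : p ≠ p' := fun h => hne (by rw [h])
    have hD : ((N p b : ℝ) - N p' b) ≠ 0 := by
      intro h0
      apply hne
      have : (N p b : ℝ) = N p' b := by linarith
      exact_mod_cast this
    obtain ⟨z, hz⟩ := hint (fun q => (if q = p then 1 / (2 * ((N p b : ℝ) - N p' b)) else 0) -
      (if q = p' then 1 / (2 * ((N p b : ℝ) - N p' b)) else 0)) (by
        rw [Finset.sum_sub_distrib]; simp) b hb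
    simp only [sub_mul, Finset.sum_sub_distrib, ite_mul, zero_mul, Finset.sum_ite_eq',
      Finset.mem_univ, if_true] at hz
    have h1 : (1 : ℝ) / 2 = z := by
      rw [← hz]
      field_simp
    have h2 : (1 : ℝ) = 2 * z := by linarith
    have h3 : (1 : ℤ) = 2 * z := by exact_mod_cast h2
    omega
  have hNpos : ∀ b ∈ B, ∀ p, ∃ l, β (p, l) = b := by
    intro b hb p
    by_contra hno
    push Not at hno
    have h1 : N p b = 0 := Finset.sum_eq_zero fun l _ => by rw [if_neg (hno l)]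
    have h2 : 1 ≤ N b.1 b := by
      have h3 : (if β (b.1, b.2) = b then (1 : ℤ) else 0) ≤ N b.1 b :=
        Finset.single_le_sum (f := fun l => if β (b.1, l) = b then (1 : ℤ) else 0)
          (fun l _ => by split_ifs <;> norm_num) (Finset.mem_univ b.2)
      rwa [if_pos (hβb b hb)] at h3
    rw [hNeq b hb b.1 p, h1] at h2
    omega
  -- the bijections
  have hbij : ∀ p, Function.Bijective (fun l : Fin r => (⟨β (p, l), hβB _⟩ : {b // b ∈ B})) := by
    intro p
    rw [Fintype.bijective_iff_surjective_and_card]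
    refine ⟨fun b => ?_, by simp [hB]⟩
    obtain ⟨l, hl⟩ := hNpos b.1 b.2 p
    exact ⟨l, Subtype.ext hl⟩
  let τ : ∀ p, Fin r ≃ {b // b ∈ B} := fun p => Equiv.ofBijective _ (hbij p)
  obtain ⟨p₀⟩ := (inferInstance : Nonempty P)
  refine ⟨fun p => (τ p₀).trans (τ p).symm, fun l => ?_⟩
  set b : P × Fin r := (τ p₀ l).1 with hbdef
  have hb : b ∈ B := (τ p₀ l).2
  obtain ⟨m, hm, h0, hmul⟩ := h.mult b hb
  apply hsat (m b) _ h0
  have : (m b) • rho (fun p => (τ p₀).trans (τ p).symm) l = m := by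
    funext i
    have h1 : (m i : ℝ) = m b * (if β i = b then 1 else 0) := by rw [hmul i, hrow b hb]
    have h2 : m i = m b * (if β i = b then 1 else 0) := by
      have : (m i : ℝ) = ((m b * (if β i = b then 1 else 0) : ℤ) : ℝ) := by
        rw [h1]; push_cast; rfl
      exact_mod_cast this
    rw [h2]
    simp only [Pi.smul_apply, rho, smul_eq_mul]
    congr 1
    have h3 : i.2 = ((τ p₀).trans (τ i.1).symm) l ↔ β i = b := by
      rw [Equiv.trans_apply, eq_comm, Equiv.symm_apply_eq, eq_comm, Subtype.ext_iff]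
      rfl
    by_cases h4 : β i = b
    · rw [if_pos (h3.mpr h4), if_pos h4]
    · rw [if_neg (fun h' => h4 (h3.mp h')), if_neg h4]
  rw [this]
  exact hm

end Pool.Agent.TH571.GP
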