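import Pool.Agent.TH571.GP.Spectral

set_option autoImplicit false

/-!
Systems of a given spectral type, with the same sign convention at all points.
-/

open Polynomial Pool.Agent.W432.PC Pool.Agent.W432.TC

namespace Pool.Agent.TH571.GP

/-- Change of the sign at infinity, the point at infinity becomes the last one. -/
def fwd {K : Type*} [Neg K] (n r : ℕ) (v : ExponentIndex n r → K) : Fin (n + 1) × Fin r → K := fun i =>
  Fin.lastCases (motive := fun _ => K) (-v (Sum.inr i.2)) (fun j => v (Sum.inl (j, i.2))) i.1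

lemma fwd_last {K : Type*} [Neg K] {n r : ℕ} (v : ExponentIndex n r → K) (l : Fin r) :
    fwd n r v (Fin.last n, l) = -v (Sum.inr l) := by
  simp [fwd]

lemma fwd_castSucc {K : Type*} [Neg K] {n r : ℕ} (v : ExponentIndex n r → K) (j : Fin n) (l : Fin r) :
    fwd n r v (j.castSucc, l) = v (Sum.inl (j, l)) := by
  simp [fwd]

/-- `fwd` as a homomorphism. -/
def fwdHom (n r : ℕ) : (ExponentIndex n r → ℤ) →+ (Fin (n + 1) × Fin r → ℤ) where
  toFun := fwd n r
  map_zero' := by
    funext ⟨p, l⟩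
    refine Fin.lastCases ?_ (fun j => ?_) p
    · rw [fwd_last]; simp
    · rw [fwd_castSucc]; rfl
  map_add' a b := by
    funext ⟨p, l⟩
    refine Fin.lastCases ?_ (fun j => ?_) p
    · simp only [Pi.add_apply, fwd_last]; ring
    · simp only [Pi.add_apply, fwd_castSucc]

lemma sum_fwd {n r : ℕ} (m : ExponentIndex n r → ℤ) (z : ExponentIndex n r → ℝ) :
    ∑ i, ((fwd n r m i : ℤ) : ℝ) * fwd n r z i = ∑ i, (m i : ℝ) * z i := by
  rw [Fintype.sum_prod_type, Fin.sum_univ_castSucc, Fintype.sum_sum_type, Fintype.sum_prod_type]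
  congr 1
  · refine Finset.sum_congr rfl fun j _ => Finset.sum_congr rfl fun l _ => ?_
    rw [fwd_castSucc, fwd_castSucc]
  · refine Finset.sum_congr rfl fun l _ => ?_
    rw [fwd_last, fwd_last]; push_cast; ring

lemma inCoset_fwd {n r : ℕ} {L : AddSubgroup (ExponentIndex n r → ℤ)} {c : ExponentIndex n r → ℚ}
    {x : ExponentIndex n r → ℝ} (h : InCoset L c x) :
    InCoset (L.map (fwdHom n r)) (fwd n r c) (fwd n r x) := by
  rintro m hm
  obtain ⟨m', hm', rfl⟩ := AddSubgroup.mem_map.mp hm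
  obtain ⟨z, hz⟩ := h m' hm'
  refine ⟨z, ?_⟩
  have h1 := sum_fwd m' (fun i => x i - c i)
  rw [hz] at h1
  rw [← h1]
  refine Finset.sum_congr rfl fun i _ => ?_
  rcases i with ⟨p, l⟩
  refine Fin.lastCases ?_ (fun j => ?_) p
  · simp only [fwdHom, AddMonoidHom.coe_mk, ZeroHom.coe_mk, fwd_last]
    push_cast; ring
  · simp only [fwdHom, AddMonoidHom.coe_mk, ZeroHom.coe_mk, fwd_castSucc]

universe u

theorem spectral' (n r : ℕ) (ty : Fin (n + 1) → Fin r → Fin r) (p₀ : Fin (n + 1))
    (big : Fin (n + 1) → Fin r) (m : ℕ)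
    (hm : ∀ p l, p = p₀ ∨ ty p l ≠ big p →
      (Finset.univ.filter fun l' => ty p l' = ty p l).card ≤ m) :
    ∃ 𝒟 : Finset (AddSubgroup (Fin (n + 1) × Fin r → ℤ) × (Fin (n + 1) × Fin r → ℚ)),
      (∀ C ∈ 𝒟, ∃ (k : ℕ) (f : Fin k → Fin (n + 1) × Fin r → ℤ), r ≤ k * m ∧
        LinearIndependent ℤ (fun j => csum ty (f j)) ∧ ∀ j, f j ∈ C.1) ∧
      ∀ (R : Type u) [CommRing R] [IsDomain R] [CharZero R] [Algebra.FiniteType ℤ R]
        (α : Fin n → R) (A : Fin n → Matrix (Fin r) (Fin r) R)
        (lam : Fin (n + 1) → Fin r → ℚ) (N : ℕ),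
        (∀ i j, i ≠ j → IsUnit (α i - α j)) →
        (∀ j : Fin n, HasExponents (A j) (lam j.castSucc)) →
        HasExponents (∑ j, A j) (fun l => -lam (Fin.last n) l) →
        (∀ j l l', ty j l = ty j l' → ∃ z : ℤ, lam j l - lam j l' = z) →
        0 < N → (∀ j l, ∃ m : ℤ, (N : ℚ) * lam j l = m) →
        (∃ C ∈ 𝒟, InCoset C.1 C.2 (fun i => ((lam i.1 i.2 : ℚ) : ℝ))) ∨
          ((∃ a : ℤ, IsCoprime a (N : ℤ) ∧ ∃ P₀ : ℕ, ∀ p : ℕ, p.Prime → P₀ < p →
            (N : ℤ) ∣ a * p + 1 → ∀ (𝔪 : Ideal R) [𝔪.IsMaximal], (p : R) ∈ 𝔪 →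
              ¬ PCurvZeroAt α A 𝔪) ∧ ¬ CondII α A) := by
  classical
  let e : Fin (n + 1) ≃ Option (Fin n) := finSuccEquivLast
  have he_last : e (Fin.last n) = none := finSuccEquivLast_last
  have he_cast : ∀ j : Fin n, e j.castSucc = some j := fun j => finSuccEquivLast_castSucc j
  have he_none : e.symm none = Fin.last n := by rw [← he_last, Equiv.symm_apply_apply]
  have he_some : ∀ j, e.symm (some j) = j.castSucc := fun j => by
    rw [← he_cast, Equiv.symm_apply_apply]
  obtain ⟨𝒟, h𝒟, hcov⟩ := spectral n r (fun p => ty (e.symm p)) (e p₀) (fun p => big (e.symm p)) m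
    (fun p l h => hm (e.symm p) l (by
      rcases h with h | h
      · left; rw [h, Equiv.symm_apply_apply]
      · right; exact h))
  refine ⟨𝒟.image fun C => (C.1.map (fwdHom n r), fwd n r C.2), fun C hC => ?_, ?_⟩
  · obtain ⟨C', hC', rfl⟩ := Finset.mem_image.mp hC
    obtain ⟨k, f, hk, hf, hfC⟩ := h𝒟 C' hC'
    refine ⟨k, fun j => fwdHom n r (f j), hk, ?_, fun j => AddSubgroup.mem_map_of_mem _ (hfC j)⟩
    rw [Fintype.linearIndependent_iff] at hf ⊢
    intro g hg
    refine hf g ?_
    funext ⟨p, a⟩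
    have h3 := congrFun hg (e.symm p, a)
    simp only [Finset.sum_apply, Pi.smul_apply, smul_eq_mul, Pi.zero_apply] at h3 ⊢
    rcases p with _ | i
    · rw [he_none] at h3
      have h4 : ∀ t, csum ty (fwdHom n r (f t)) (Fin.last n, a) =
          -classSum (fun p => ty (e.symm p)) (f t) (none, a) := by
        intro t
        rw [csum_apply]
        unfold classSum
        rw [← Finset.sum_neg_distrib]
        refine Finset.sum_congr rfl fun l _ => ?_
        simp only [Option.elim_none, he_none, fwdHom, AddMonoidHom.coe_mk, ZeroHom.coe_mk, fwd_last]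
        split_ifs <;> simp
      simp only [h4, mul_neg, Finset.sum_neg_distrib, neg_eq_zero] at h3
      exact h3
    · rw [he_some] at h3
      have h4 : ∀ t, csum ty (fwdHom n r (f t)) (i.castSucc, a) =
          classSum (fun p => ty (e.symm p)) (f t) (some i, a) := by
        intro t
        rw [csum_apply]
        unfold classSum
        refine Finset.sum_congr rfl fun l _ => ?_
        simp only [Option.elim_some, he_some, fwdHom, AddMonoidHom.coe_mk, ZeroHom.coe_mk,
          fwd_castSucc]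
      simp only [h4] at h3
      exact h3
  intro R _ _ _ _ α A lam N hα hlam hphi hty hN hNlam
  rcases hcov R α A (fun j => lam j.castSucc) (fun l => -lam (Fin.last n) l) N hα hlam hphi
    (fun j l l' h => hty j.castSucc l l' (by simpa only [he_some] using h))
    (fun l l' h => by
      obtain ⟨z, hz⟩ := hty (Fin.last n) l l' (by simpa only [he_none] using h)
      exact ⟨-z, by push_cast; rw [← hz]; ring⟩) hN (fun j l => hNlam _ l)
    (fun l => by
      obtain ⟨z, hz⟩ := hNlam (Fin.last n) l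
      exact ⟨-z, by push_cast; rw [← hz]; ring⟩) with ⟨C, hC, hx⟩ | h
  · left
    refine ⟨_, Finset.mem_image_of_mem _ hC, ?_⟩
    have h1 := inCoset_fwd hx
    convert h1 using 1
    funext ⟨p, l⟩
    refine Fin.lastCases ?_ (fun j => ?_) p
    · rw [fwd_last]; simp
    · rw [fwd_castSucc]; simp
  · exact Or.inr h

end Pool.Agent.TH571.GP
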