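import Pool.Agent.W432.TC.Final
import Pool.Agent.TH571.GP.Struct

set_option autoImplicit false

/-!
The structure theorem for the cosets of exponents of Fuchsian systems.
-/

open Pool.Agent.W432.PC Pool.Agent.W432.TC

namespace Pool.Agent.TH571.GP

/-- Change of the sign at infinity. -/
def backHom (n r : ℕ) : (Option (Fin n) × Fin r → ℤ) →+ (ExponentIndex n r → ℤ) where
  toFun m := Sum.elim (fun p => m (some p.1, p.2)) (fun l => -m (none, l))
  map_zero' := by
    funext i
    rcases i with i | i <;> simp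
  map_add' m m' := by
    funext i
    rcases i with i | i <;> simp [add_comm]

variable {n r : ℕ}

lemma backHom_inl (m : Option (Fin n) × Fin r → ℤ) (p : Fin n × Fin r) :
    backHom n r m (Sum.inl p) = m (some p.1, p.2) := rfl

lemma backHom_inr (m : Option (Fin n) × Fin r → ℤ) (l : Fin r) :
    backHom n r m (Sum.inr l) = -m (none, l) := rfl

lemma backHom_injective : Function.Injective (backHom n r) := by
  intro m m' h
  funext ⟨p, l⟩
  rcases p with _ | j
  · have := congrFun h (Sum.inr l)
    rw [backHom_inr, backHom_inr] at this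
    omega
  · exact congrFun h (Sum.inl (j, l))

/-- Points, with the sign at infinity changed. -/
def toU (z : ExponentIndex n r → ℝ) : Option (Fin n) × Fin r → ℝ := fun i =>
  i.1.elim (-z (Sum.inr i.2)) fun j => z (Sum.inl (j, i.2))

/-- The inverse. -/
def toZ (u : Option (Fin n) × Fin r → ℝ) : ExponentIndex n r → ℝ :=
  Sum.elim (fun p => u (some p.1, p.2)) (fun l => -u (none, l))

lemma sum_back (m : Option (Fin n) × Fin r → ℤ) (z : ExponentIndex n r → ℝ) :
    ∑ i, (backHom n r m i : ℝ) * z i = ∑ i, (m i : ℝ) * toU z i := by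
  rw [Fintype.sum_sum_type, Fintype.sum_prod_type, Fintype.sum_prod_type, Fintype.sum_option,
    add_comm]
  congr 1
  refine Finset.sum_congr rfl fun l _ => ?_
  rw [backHom_inr]
  simp [toU]

lemma weyl_SW {u : Option (Fin n) × Fin r → ℝ}
    (h : Weyl (fun j l => toZ u (Sum.inl (j, l))) (fun l => toZ u (Sum.inr l))) : SW u := by
  intro κ hκ
  rw [Fintype.sum_option] at hκ
  have h1 := h (fun j => κ (some j)) (-κ none) (by linarith)
  rw [Fintype.sum_option, Fintype.sum_prod_type, Fintype.sum_option, Fintype.card_option,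
    Fintype.card_fin]
  have h2 : ∀ l, rep (κ none - u (none, l)) = nextGt (-κ none) (toZ u (Sum.inr l)) + κ none := by
    intro l
    have h3 : ⌊-κ none - toZ u (Sum.inr l)⌋ = -⌈κ none - u (none, l)⌉ := by
      rw [← Int.floor_neg]
      congr 1
      simp only [toZ, Sum.elim_inr]; ring
    unfold rep nextGt
    rw [h3]
    simp only [toZ, Sum.elim_inr]
    push_cast; ring
  have h4 : ∀ (j : Fin n) (l : Fin r), rep (κ (some j) - u (some j, l)) =
      κ (some j) + 1 - nextGe (κ (some j)) (toZ u (Sum.inl (j, l))) := by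
    intro j l
    unfold rep nextGe
    simp only [toZ, Sum.elim_inl]
    ring
  have h5 : ∑ l, rep (κ none - u (none, l)) =
      ∑ l, nextGt (-κ none) (toZ u (Sum.inr l)) + r * κ none := by
    rw [Finset.sum_congr rfl fun l _ => h2 l, Finset.sum_add_distrib]
    simp
  have h6 : ∑ j, ∑ l, rep (κ (some j) - u (some j, l)) =
      r * ∑ j, κ (some j) + n * r -
        ∑ j, ∑ l, nextGe (κ (some j)) (toZ u (Sum.inl (j, l))) := by
    rw [Finset.sum_congr rfl fun j _ => Finset.sum_congr rfl fun l _ => h4 j l]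
    simp only [Finset.sum_sub_distrib, Finset.sum_add_distrib, Finset.sum_const, Finset.card_univ,
      Fintype.card_fin, nsmul_eq_mul, Finset.mul_sum]
    ring
  simp only at h1 ⊢
  rw [h5, h6]
  push_cast
  linarith

lemma exc_of_coset {L : AddSubgroup (ExponentIndex n r → ℤ)} {c : ExponentIndex n r → ℚ}
    (H : ∀ z, InCoset L c z → WeylBoth z) :
    Exc (L.comap (backHom n r)) (toU fun i => (c i : ℝ)) := by
  intro x hx
  apply weyl_SW
  refine (H (toZ x) fun m hm => ⟨0, ?_⟩).1
  let m' : Option (Fin n) × Fin r → ℤ := fun i =>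
    i.1.elim (-m (Sum.inr i.2)) fun j => m (Sum.inl (j, i.2))
  have hm' : backHom n r m' = m := by
    funext i
    rcases i with ⟨j, l⟩ | l
    · rfl
    · rw [backHom_inr]; simp [m']
  have h1 := hx m' (by rw [AddSubgroup.mem_comap, hm']; exact hm)
  have h2 := sum_back m' (fun i => toZ x i - c i)
  rw [hm'] at h2
  rw [h2, Int.cast_zero, ← h1]
  refine Finset.sum_congr rfl fun i _ => ?_
  rcases i with ⟨_ | j, l⟩
  · simp only [toU, toZ, Option.elim_none, Sum.elim_inr]; ring
  · simp [toU, toZ]

/-- The relation between the exponents `lam j (σ j l)` and `phi (σ ∞ l)` of a summand of rank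
one. -/
def sumRel (σ : Option (Fin n) → Equiv.Perm (Fin r)) (l : Fin r) : ExponentIndex n r → ℤ :=
  backHom n r (rho σ l)

lemma traceRel_back : backHom n r (fun _ => 1) = traceRelation n r := by
  funext i
  rcases i with i | i <;> rfl

/-- Cosets of exponents all of whose points satisfy the Weyl inequalities have at least `r`
independent relations, and exactly `r` only for direct sums. -/
theorem coset_structure {L : AddSubgroup (ExponentIndex n r → ℤ)} {c : ExponentIndex n r → ℚ}
    (hsat : ∀ (d : ℤ) (m : ExponentIndex n r → ℤ), d ≠ 0 → d • m ∈ L → m ∈ L)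
    (hone : traceRelation n r ∈ L) (H : ∀ z, InCoset L c z → WeylBoth z)
    (hrank : ¬ ∃ m : Fin (r + 1) → ExponentIndex n r → ℤ, LinearIndependent ℤ m ∧ ∀ k, m k ∈ L) :
    (∃ σ : Option (Fin n) → Equiv.Perm (Fin r), ∀ l, sumRel σ l ∈ L) ∧
      ∀ m ∈ L, ∃ z : ℤ, ∑ i, (m i : ℚ) * c i = z := by
  obtain ⟨⟨σ, hσ⟩, k, hk⟩ := structure_thm (L.comap (backHom n r)) (toU fun i => (c i : ℝ))
    (by
      intro d m hd hm
      rw [AddSubgroup.mem_comap, map_zsmul] at hm
      rw [AddSubgroup.mem_comap]
      exact hsat d _ hd hm)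
    (by rw [AddSubgroup.mem_comap, traceRel_back]; exact hone) (exc_of_coset H) (by
      rintro ⟨m, hm, hmL⟩
      refine hrank ⟨fun k => backHom n r (m k), ?_, hmL⟩
      exact hm.map' (backHom n r).toIntLinearMap
        (LinearMap.ker_eq_bot.mpr backHom_injective))
  refine ⟨⟨σ, hσ⟩, fun m hm => ?_⟩
  let m' : Option (Fin n) × Fin r → ℤ := fun i =>
    i.1.elim (-m (Sum.inr i.2)) fun j => m (Sum.inl (j, i.2))
  have hm' : backHom n r m' = m := by
    funext i
    rcases i with ⟨j, l⟩ | l
    · rfl
    · rw [backHom_inr]; simp [m']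
  have h1 := hk m' (by rw [AddSubgroup.mem_comap, hm']; exact hm)
  have h2 := sum_back m' (fun i => (c i : ℝ))
  rw [hm'] at h2
  refine ⟨∑ i, m' i * k i, ?_⟩
  have h3 : ∑ i, (m i : ℝ) * c i = ((∑ i, m' i * k i : ℤ) : ℝ) := by
    rw [h2]
    push_cast
    simp only [mul_sub, Finset.sum_sub_distrib] at h1
    linarith
  exact_mod_cast h3

end Pool.Agent.TH571.GP
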